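import Pool.Agent.H223.EM.MDefs

set_option autoImplicit false

/-!
Eighth moment lower bound, MN2: the continuous integrals of `C2` in the limit `ε → 0`.
-/

namespace Pool.Agent.H989R2.EM

open Finset Filter Topology MeasureTheory
open Pool.Agent.H306R2 Pool.Agent.H306R2.SM Pool.Agent.H223.EM

noncomputable section

lemma et_zero {ε x : ℝ} (hε : 0 < ε) (h : 1 / 2 ≤ x) : et ε x = 0 :=
  sc_eq_zero hε (by linarith)

lemma et_cont (ε : ℝ) : Continuous (et ε) := sc_cont _ _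

lemma et_nonneg (ε x : ℝ) : 0 ≤ et ε x := sc_nonneg _ _ _

lemma et_le_one (ε x : ℝ) : et ε x ≤ 1 := sc_le_one _ _ _

lemma et_lim {x : ℝ} (h : x < 1 / 2) : Tendsto (fun ε => et ε x) (𝓝[>] (0 : ℝ)) (𝓝 1) := by
  refine Tendsto.congr' ?_ tendsto_const_nhds
  have h1 : ∀ᶠ ε : ℝ in 𝓝[>] 0, ε < (1 / 2 - x) / 2 :=
    (eventually_lt_nhds (show (0 : ℝ) < (1 / 2 - x) / 2 by linarith)).filter_mono
      nhdsWithin_le_nhds
  filter_upwards [h1, self_mem_nhdsWithin] with ε h2 h3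
  exact (sc_eq_one h3 (by linarith)).symm

lemma gd4 (x : ℝ) : gd 4 x = if 0 < x then x ^ 3 / 6 else 0 := by
  unfold gd
  split_ifs with h
  · rw [show (4 : ℝ) - 1 = ((3 : ℕ) : ℝ) by norm_num, Real.rpow_natCast]
    rw [show (4 : ℝ) = ((3 : ℕ) : ℝ) + 1 by norm_num, Real.Gamma_nat_eq_factorial]
    norm_num [Nat.factorial]
  · rfl

lemma lim1 (b : ℝ) (hb : 0 < b) (F : ℝ → ℝ → ℝ) (C : ℝ) (hFm : ∀ ε, 0 < ε → Measurable (F ε))
    (hF1 : ∀ ε, 0 < ε → ∀ x, 0 < x → x < b → |F ε x| ≤ C)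
    (hF0 : ∀ ε, 0 < ε → ∀ x, b ≤ x → F ε x = 0) (G : ℝ → ℝ)
    (hFl : ∀ x, 0 < x → x < b → Tendsto (fun ε => F ε x) (𝓝[>] (0 : ℝ)) (𝓝 (G x))) :
    Tendsto (fun ε => ∫ x, gd 4 x * F ε x) (𝓝[>] (0 : ℝ))
      (𝓝 (∫ x in (0 : ℝ)..b, x ^ 3 / 6 * G x)) := by
  have hlim : (∫ x in (0 : ℝ)..b, x ^ 3 / 6 * G x) =
      ∫ x, (Set.Ioo 0 b).indicator (fun x => x ^ 3 / 6 * G x) x := by
    rw [intervalIntegral.integral_of_le hb.le, integral_Ioc_eq_integral_Ioo,
      integral_indicator measurableSet_Ioo]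
  rw [hlim]
  refine tendsto_integral_filter_of_dominated_convergence (fun x => gd 4 x * ct b x * |C|)
    ?_ ?_ ((gd_ct_integrable (by norm_num) b).mul_const _) ?_
  · filter_upwards [self_mem_nhdsWithin] with ε hε
    exact ((gd_meas 4).mul (hFm ε hε)).aestronglyMeasurable
  · filter_upwards [self_mem_nhdsWithin] with ε hε
    refine Eventually.of_forall fun x => ?_
    rw [Real.norm_eq_abs, abs_mul, abs_of_nonneg (gd_nonneg (by norm_num) x)]
    by_cases hx : 0 < x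
    · rcases lt_or_ge x b with h | h
      · rw [mul_assoc]
        refine mul_le_mul_of_nonneg_left ?_ (gd_nonneg (by norm_num) x)
        unfold ct
        rw [if_pos h.le, one_mul]
        exact (hF1 ε hε x hx h).trans (le_abs_self C)
      · rw [hF0 ε hε x h, abs_zero, mul_zero]
        exact mul_nonneg (mul_nonneg (gd_nonneg (by norm_num) x) (ct_nonneg _ _)) (abs_nonneg _)
    · have : gd 4 x = 0 := by rw [gd4, if_neg hx]
      rw [this]; simp
  · refine Eventually.of_forall fun x => ?_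
    by_cases hx : 0 < x
    · rcases lt_or_ge x b with h | h
      · rw [Set.indicator_of_mem (Set.mem_Ioo.mpr ⟨hx, h⟩), gd4, if_pos hx]
        exact (hFl x hx h).const_mul _
      · rw [Set.indicator_of_notMem (fun hh => absurd hh.2 (not_lt.mpr h))]
        refine Tendsto.congr' ?_ tendsto_const_nhds
        filter_upwards [self_mem_nhdsWithin] with ε hε
        rw [hF0 ε hε x h, mul_zero]
    · rw [Set.indicator_of_notMem (fun hh => hx hh.1), gd4, if_neg hx]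
      simp

/-! ### Explicit integrals -/

lemma int_a : ∫ x in (0 : ℝ)..(1 / 2), x ^ 3 / 6 * ((1 / 2 - x) ^ 4 / 24) ^ 2 =
    40320 / (479001600 * 4096 * 576) := by
  have h : ∀ x ∈ Set.uIcc (0 : ℝ) (1 / 2), HasDerivAt (fun x : ℝ =>
      -(1 / 8 * (1 / 2 - x) ^ 9 / 9 - 3 / 4 * (1 / 2 - x) ^ 10 / 10 +
        3 / 2 * (1 / 2 - x) ^ 11 / 11 - (1 / 2 - x) ^ 12 / 12) / (6 * 576))
      (x ^ 3 / 6 * ((1 / 2 - x) ^ 4 / 24) ^ 2) x := by
    intro x _
    have hu : HasDerivAt (fun x : ℝ => (1 / 2 - x)) (-1) x := by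
      exact (hasDerivAt_id x).const_sub (1 / 2)
    have h := ((((((hu.pow 9).const_mul (1 / 8)).div_const 9).sub
      (((hu.pow 10).const_mul (3 / 4)).div_const 10)).add
      (((hu.pow 11).const_mul (3 / 2)).div_const 11)).sub ((hu.pow 12).div_const 12)).neg.div_const
        (6 * 576)
    refine h.congr_deriv ?_
    push_cast
    ring
  rw [intervalIntegral.integral_eq_sub_of_hasDerivAt h (by
    apply Continuous.intervalIntegrable
    fun_prop)]
  norm_num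

lemma int_b : ∫ x in (0 : ℝ)..(1 / 2), x ^ 3 / 6 * (1 : ℝ) = 1 / 384 := by
  simp
  norm_num

lemma int_c (b : ℝ) : ∫ x in (0 : ℝ)..b, x ^ 3 / 6 * (1 : ℝ) = b ^ 4 / 24 := by
  simp
  ring

lemma fval : (40320 / (479001600 * 4096 * 576) : ℝ) * (1 / 384) =
    15925 / 8192 / (Nat.factorial 16 : ℝ) := by
  norm_num [Nat.factorial]

/-! ### The norm -/

lemma IW2n_eq (ε : ℝ) : IW2n ε = (∫ x, gd 4 x * ((1 / 2 - x) ^ 4 / 24 * et ε x) ^ 2) *
    ∫ y, gd 4 y * et ε y ^ 2 := by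
  unfold IW2n
  have h1 : ∀ u : Fin 2 → ℝ, Gd ![4, 4] u * f2 ε (u 0) (u 1) ^ 2 =
      ∏ i, (![fun x => gd 4 x * ((1 / 2 - x) ^ 4 / 24 * et ε x) ^ 2,
        fun y => gd 4 y * et ε y ^ 2] : Fin 2 → ℝ → ℝ) i (u i) := by
    intro u
    unfold Gd f2
    simp only [Fin.prod_univ_two, Matrix.cons_val_zero, Matrix.cons_val_one]
    ring
  simp only [h1]
  rw [integral_fintype_prod_volume_eq_prod (𝕜 := ℝ)
    (![fun x => gd 4 x * ((1 / 2 - x) ^ 4 / 24 * et ε x) ^ 2,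
        fun y => gd 4 y * et ε y ^ 2] : Fin 2 → ℝ → ℝ)]
  simp only [Fin.prod_univ_two, Matrix.cons_val_zero, Matrix.cons_val_one]

lemma pow4_le {x : ℝ} (h0 : 0 < x) (h1 : x < 1 / 2) : |(1 / 2 - x) ^ 4 / 24| ≤ 1 := by
  rw [abs_of_nonneg (by positivity)]
  have : (1 / 2 - x) ^ 4 ≤ 1 := pow_le_one₀ (by linarith) (by linarith)
  linarith

lemma lim_n1 : Tendsto (fun ε => ∫ x, gd 4 x * ((1 / 2 - x) ^ 4 / 24 * et ε x) ^ 2)
    (𝓝[>] (0 : ℝ)) (𝓝 (∫ x in (0 : ℝ)..(1 / 2), x ^ 3 / 6 * ((1 / 2 - x) ^ 4 / 24) ^ 2)) := by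
  refine lim1 (1 / 2) (by norm_num) _ 1 ?_ ?_ ?_ _ ?_
  · intro ε _
    exact (Continuous.measurable (by have := et_cont ε; fun_prop))
  · intro ε _ x h0 h1
    rw [abs_pow, abs_mul, abs_of_nonneg (et_nonneg ε x)]
    exact pow_le_one₀ (mul_nonneg (abs_nonneg _) (et_nonneg _ _))
      (mul_le_one₀ (pow4_le h0 h1) (et_nonneg _ _) (et_le_one _ _))
  · intro ε hε x hx
    rw [et_zero hε hx]
    ring
  · intro x _ hx
    have := ((et_lim hx).const_mul ((1 / 2 - x) ^ 4 / 24)).pow 2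
    simpa using this

lemma lim_n2 : Tendsto (fun ε => ∫ x, gd 4 x * et ε x ^ 2)
    (𝓝[>] (0 : ℝ)) (𝓝 (∫ x in (0 : ℝ)..(1 / 2), x ^ 3 / 6 * (1 : ℝ))) := by
  refine lim1 (1 / 2) (by norm_num) _ 1 ?_ ?_ ?_ _ ?_
  · intro ε _
    exact (Continuous.measurable (by have := et_cont ε; fun_prop))
  · intro ε _ x h0 h1
    rw [abs_pow, abs_of_nonneg (et_nonneg ε x)]
    exact pow_le_one₀ (et_nonneg _ _) (et_le_one _ _)
  · intro ε hε x hx
    rw [et_zero hε hx]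
    ring
  · intro x _ hx
    have := (et_lim hx).pow 2
    simpa using this

lemma lim_n3 : Tendsto (fun ε => ∫ x, gd 4 x * et ε x)
    (𝓝[>] (0 : ℝ)) (𝓝 (∫ x in (0 : ℝ)..(1 / 2), x ^ 3 / 6 * (1 : ℝ))) := by
  refine lim1 (1 / 2) (by norm_num) _ 1 ?_ ?_ ?_ _ ?_
  · intro ε _
    exact (et_cont ε).measurable
  · intro ε _ x h0 h1
    rw [abs_of_nonneg (et_nonneg ε x)]
    exact et_le_one _ _
  · intro ε hε x hx
    exact et_zero hε hx
  · intro x _ hx
    exact et_lim hx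

lemma lim_B {x : ℝ} (h0 : 0 < x) (h1 : x < 1 / 2) :
    Tendsto (fun ε => ∫ z, gd 4 z * et ε (x + z)) (𝓝[>] (0 : ℝ)) (𝓝 ((1 / 2 - x) ^ 4 / 24)) := by
  rw [← int_c]
  refine lim1 (1 / 2 - x) (by linarith) _ 1 ?_ ?_ ?_ _ ?_
  · intro ε _
    exact (Continuous.measurable (by have := et_cont ε; fun_prop))
  · intro ε _ z _ _
    rw [abs_of_nonneg (et_nonneg _ _)]
    exact et_le_one _ _
  · intro ε hε z hz
    exact et_zero hε (by linarith)
  · intro z _ hz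
    exact et_lim (by linarith)

lemma B_meas (ε : ℝ) : Measurable (fun x : ℝ => ∫ z, gd 4 z * et ε (x + z)) := by
  have h : StronglyMeasurable (fun p : ℝ × ℝ => gd 4 p.2 * et ε (p.1 + p.2)) := by
    have h1 : Measurable (fun p : ℝ × ℝ => gd 4 p.2) := (gd_meas 4).comp measurable_snd
    have h2 : Measurable (fun p : ℝ × ℝ => et ε (p.1 + p.2)) :=
      (et_cont ε).measurable.comp (by fun_prop)
    exact (h1.mul h2).stronglyMeasurable
  exact (StronglyMeasurable.integral_prod_right (ν := volume)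
    (f := fun x z : ℝ => gd 4 z * et ε (x + z)) h).measurable

lemma B_le {ε x : ℝ} (hε : 0 < ε) (h0 : 0 < x) :
    |∫ z, gd 4 z * et ε (x + z)| ≤ ∫ z, gd 4 z * ct (1 / 2) z := by
  rw [← Real.norm_eq_abs]
  refine norm_integral_le_of_norm_le (gd_ct_integrable (by norm_num) _)
    (Eventually.of_forall fun z => ?_)
  have hg := gd_nonneg (m := 4) (by norm_num) z
  rw [Real.norm_eq_abs, abs_of_nonneg (mul_nonneg hg (et_nonneg _ _))]
  refine mul_le_mul_of_nonneg_left ?_ hg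
  unfold ct
  split_ifs with h
  · exact et_le_one _ _
  · rw [et_zero hε (by linarith)]

lemma A_le {ε : ℝ} (hε : 0 < ε) :
    |∫ z, gd 4 z * et ε z| ≤ ∫ z, gd 4 z * ct (1 / 2) z := by
  rw [← Real.norm_eq_abs]
  refine norm_integral_le_of_norm_le (gd_ct_integrable (by norm_num) _)
    (Eventually.of_forall fun z => ?_)
  have hg := gd_nonneg (m := 4) (by norm_num) z
  rw [Real.norm_eq_abs, abs_of_nonneg (mul_nonneg hg (et_nonneg _ _))]
  refine mul_le_mul_of_nonneg_left ?_ hg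
  unfold ct
  split_ifs with h
  · exact et_le_one _ _
  · rw [et_zero hε (by linarith)]

lemma IW2c_eq {ε : ℝ} (hε : 0 < ε) : IW2c ε = ∫ x, gd 4 x * (((1 / 2 - x) ^ 4 / 24 * et ε x) *
    ((∫ y, gd 4 y * et ε y) * ∫ z, gd 4 z * et ε (x + z))) := by
  unfold IW2c
  have hFint : Integrable (fun u : Fin 3 → ℝ => Gd ![4, 4, 4] u *
      (f2 ε (u 0) (u 1) * et ε (u 0 + u 2))) := by
    refine tf_integrable _ ?_ (1 / 2) ?_ (by norm_num) ?_
    · have := et_cont ε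
      unfold f2
      fun_prop
    · rintro u hu ⟨i, hi⟩
      unfold f2
      fin_cases i
      · rw [et_zero (x := u 0) hε hi]; ring
      · rw [et_zero (x := u 1) hε hi]; ring
      · rw [et_zero (x := u 0 + u 2) hε (by
          have h3 : 1 / 2 ≤ u 2 := hi
          linarith [hu 0])]
        ring
    · intro i
      fin_cases i <;> simp
  have hmp := volume_preserving_piFinSuccAbove (fun _ : Fin 3 => ℝ) 0
  set e := MeasurableEquiv.piFinSuccAbove (fun _ : Fin 3 => ℝ) 0 with he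
  have h1 := (hmp.symm e).integral_comp' (g := fun u : Fin 3 → ℝ => Gd ![4, 4, 4] u *
      (f2 ε (u 0) (u 1) * et ε (u 0 + u 2)))
  have hint2 : Integrable (fun p : ℝ × (Fin 2 → ℝ) => Gd ![4, 4, 4] (e.symm p) *
      (f2 ε (e.symm p 0) (e.symm p 1) * et ε (e.symm p 0 + e.symm p 2))) :=
    ((hmp.symm e).integrable_comp_emb e.symm.measurableEmbedding
      (g := fun u : Fin 3 → ℝ => Gd ![4, 4, 4] u *
      (f2 ε (u 0) (u 1) * et ε (u 0 + u 2)))).mpr hFint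
  rw [← h1]
  rw [Measure.volume_eq_prod] at hint2 ⊢
  rw [integral_prod _ hint2]
  refine integral_congr_ae (Eventually.of_forall fun x => ?_)
  have hes : ∀ (x : ℝ) (v : Fin 2 → ℝ), e.symm (x, v) = Fin.cons x v := by
    intro x v
    rw [he, MeasurableEquiv.piFinSuccAbove_symm_apply]
    exact Fin.insertNth_zero' _ _
  have hpt : ∀ v : Fin 2 → ℝ, Gd ![4, 4, 4] (e.symm (x, v)) *
      (f2 ε (e.symm (x, v) 0) (e.symm (x, v) 1) * et ε (e.symm (x, v) 0 + e.symm (x, v) 2)) =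
      (gd 4 x * ((1 / 2 - x) ^ 4 / 24 * et ε x)) *
      ∏ i, (![fun y => gd 4 y * et ε y,
        fun z => gd 4 z * et ε (x + z)] : Fin 2 → ℝ → ℝ) i (v i) := by
    intro v
    rw [hes]
    have e0 : (Fin.cons x v : Fin 3 → ℝ) 0 = x := rfl
    have e1 : (Fin.cons x v : Fin 3 → ℝ) 1 = v 0 := rfl
    have e2 : (Fin.cons x v : Fin 3 → ℝ) 2 = v 1 := rfl
    unfold Gd f2
    rw [Fin.prod_univ_three, e0, e1, e2]
    simp only [Fin.prod_univ_two, Matrix.cons_val_zero, Matrix.cons_val_one, Matrix.cons_val]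
    ring
  simp only [hpt]
  rw [integral_const_mul, integral_fintype_prod_volume_eq_prod (𝕜 := ℝ)
    (![fun y => gd 4 y * et ε y, fun z => gd 4 z * et ε (x + z)] : Fin 2 → ℝ → ℝ)]
  simp only [Fin.prod_univ_two, Matrix.cons_val_zero, Matrix.cons_val_one]
  ring

lemma lim_c : Tendsto (fun ε => ∫ x, gd 4 x * (((1 / 2 - x) ^ 4 / 24 * et ε x) *
    ((∫ y, gd 4 y * et ε y) * ∫ z, gd 4 z * et ε (x + z)))) (𝓝[>] (0 : ℝ))
    (𝓝 (∫ x in (0 : ℝ)..(1 / 2), x ^ 3 / 6 * (((1 / 2 - x) ^ 4 / 24) *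
      ((∫ x in (0 : ℝ)..(1 / 2), x ^ 3 / 6 * (1 : ℝ)) * ((1 / 2 - x) ^ 4 / 24))))) := by
  refine lim1 (1 / 2) (by norm_num) _ ((∫ z, gd 4 z * ct (1 / 2) z) *
    ∫ z, gd 4 z * ct (1 / 2) z) ?_ ?_ ?_ _ ?_
  · intro ε _
    have h1 : Measurable (fun x : ℝ => (1 / 2 - x) ^ 4 / 24 * et ε x) :=
      (Continuous.measurable (by have := et_cont ε; fun_prop))
    exact h1.mul ((B_meas ε).const_mul _)
  · intro ε hε x h0 h1
    rw [abs_mul, abs_mul, abs_mul, abs_of_nonneg (et_nonneg ε x)]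
    have a1 : |(1 / 2 - x) ^ 4 / 24| * et ε x ≤ 1 :=
      mul_le_one₀ (pow4_le h0 h1) (et_nonneg _ _) (et_le_one _ _)
    have a2 : |∫ y, gd 4 y * et ε y| * |∫ z, gd 4 z * et ε (x + z)| ≤
        (∫ z, gd 4 z * ct (1 / 2) z) * ∫ z, gd 4 z * ct (1 / 2) z :=
      mul_le_mul (A_le hε) (B_le hε h0) (abs_nonneg _) ((abs_nonneg _).trans (A_le hε))
    calc _ ≤ 1 * ((∫ z, gd 4 z * ct (1 / 2) z) * ∫ z, gd 4 z * ct (1 / 2) z) :=
          mul_le_mul a1 a2 (by positivity) (by norm_num)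
      _ = _ := one_mul _
  · intro ε hε x hx
    rw [et_zero hε hx]
    ring
  · intro x h0 hx
    have h1 := ((et_lim hx).const_mul ((1 / 2 - x) ^ 4 / 24)).mul (lim_n3.mul (lim_B h0 hx))
    simpa using h1

/-- MN2 -/
theorem IW2_lim : Tendsto IW2n (𝓝[>] 0) (𝓝 (15925 / 8192 / (Nat.factorial 16 : ℝ))) ∧
    Tendsto IW2c (𝓝[>] 0) (𝓝 (15925 / 8192 / (Nat.factorial 16 : ℝ))) := by
  constructor
  · have h := lim_n1.mul lim_n2
    rw [int_a, int_b] at h
    have h2 : (fun ε => (∫ x, gd 4 x * ((1 / 2 - x) ^ 4 / 24 * et ε x) ^ 2) *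
        ∫ y, gd 4 y * et ε y ^ 2) = IW2n := by
      funext ε
      exact (IW2n_eq ε).symm
    rw [h2] at h
    rw [← fval]
    exact h
  · have h := lim_c
    rw [int_b] at h
    have h3 : (∫ x in (0 : ℝ)..(1 / 2), x ^ 3 / 6 * (((1 / 2 - x) ^ 4 / 24) *
      ((1 / 384 : ℝ) * ((1 / 2 - x) ^ 4 / 24)))) = 15925 / 8192 / (Nat.factorial 16 : ℝ) := by
      have h4 : ∀ x : ℝ, x ^ 3 / 6 * (((1 / 2 - x) ^ 4 / 24) *
          ((1 / 384 : ℝ) * ((1 / 2 - x) ^ 4 / 24))) =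
          (1 / 384) * (x ^ 3 / 6 * ((1 / 2 - x) ^ 4 / 24) ^ 2) := by intro x; ring
      simp only [h4]
      rw [intervalIntegral.integral_const_mul, int_a, ← fval]
      ring
    rw [h3] at h
    refine h.congr' ?_
    filter_upwards [self_mem_nhdsWithin] with ε hε
    exact (IW2c_eq hε).symm

end

end Pool.Agent.H989R2.EM
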