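import Pool.Agent.H989R2.Odd

set_option autoImplicit false
set_option linter.unusedSectionVars false
set_option linter.unusedVariables false

namespace Pool.Agent.H989R2

open Finset

section chamber

variable {D S H : Type} [Fintype D] [DecidableEq D] [Fintype S] [DecidableEq S]
  [Fintype H] [DecidableEq H]

open Classical in
theorem gcount {X : Type} (R : Bool → X → Prop) (M : X → Prop)
    (hR : ∀ x, ((univ : Finset Bool).filter fun b => R b x).card = if M x then 2 else 1)
    (x : D → X) :
    ((univ : Finset (D → Bool)).filter fun g => ∀ i, R (g i) (x i)).card =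
      2 ^ ((univ : Finset D).filter fun i => M (x i)).card := by
  have h1 : ((univ : Finset (D → Bool)).filter fun g => ∀ i, R (g i) (x i)) =
      Fintype.piFinset (fun i => (univ : Finset Bool).filter fun b => R b (x i)) := by
    ext g
    simp [Fintype.mem_piFinset]
  rw [h1, Fintype.card_piFinset]
  have h2 : ∀ i ∈ (univ : Finset D), ((univ : Finset Bool).filter fun b => R b (x i)).card =
      2 ^ (if M (x i) then 1 else 0) := by
    intro i _
    rw [hR]
    split_ifs <;> rfl
  rw [prod_congr rfl h2, prod_pow_eq_pow_sum, card_filter]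

open Classical in
theorem dcount {X : Type} (R : Bool → X → Prop) (M : X → Prop)
    (hR : ∀ x, ((univ : Finset Bool).filter fun b => R b x).card = if M x then 2 else 1)
    (B : Finset (D → X)) :
    (B.card : ℝ) = ∑ g : D → Bool, ∑ x ∈ B.filter (fun x => ∀ i, R (g i) (x i)),
      (1 / 2 : ℝ) ^ ((univ : Finset D).filter fun i => M (x i)).card := by
  have h1 : ∀ g ∈ (univ : Finset (D → Bool)), ∑ x ∈ B.filter (fun x => ∀ i, R (g i) (x i)),
      (1 / 2 : ℝ) ^ ((univ : Finset D).filter fun i => M (x i)).card =
      ∑ x ∈ B, if (∀ i, R (g i) (x i)) then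
        (1 / 2 : ℝ) ^ ((univ : Finset D).filter fun i => M (x i)).card else 0 := by
    intro g _
    rw [sum_filter]
  rw [sum_congr rfl h1, sum_comm]
  have h2 : ∀ x ∈ B, ∑ g : D → Bool, (if (∀ i, R (g i) (x i)) then
        (1 / 2 : ℝ) ^ ((univ : Finset D).filter fun i => M (x i)).card else 0) = 1 := by
    intro x _
    rw [← sum_filter, sum_const, gcount R M hR x, nsmul_eq_mul]
    push_cast
    rw [← mul_pow]
    norm_num
  rw [sum_congr rfl h2]
  simp

/-- compatibility of a symbol with a sign -/
def RS (e : H → Bool → S) (b : Bool) (s : S) : Prop := ∀ c, s ≠ e c (!b)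
def RL (e : H → Bool → S) (b : Bool) (x : S ⊕ Bool) : Prop :=
  match x with
  | Sum.inl s => RS e b s
  | Sum.inr b' => b = b'
def MS (e : H → Bool → S) (s : S) : Prop := ∀ c b, s ≠ e c b
def ML (e : H → Bool → S) (x : S ⊕ Bool) : Prop :=
  match x with
  | Sum.inl s => MS e s
  | Sum.inr _ => False

/-- points of a directed line. -/
def pt (ρ : S → S) (l : D → S ⊕ Bool) (x : S) : D → S := fun i =>
  match l i with
  | Sum.inl s => s
  | Sum.inr false => x
  | Sum.inr true => ρ x

/-- forget direction -/
def toW (l : D → S ⊕ Bool) : D → Option S := fun i =>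
  match l i with
  | Sum.inl s => some s
  | Sum.inr _ => none

open Classical in
theorem RS_count (e : H → Bool → S)
    (he : ∀ c b c' b', e c b = e c' b' → c = c' ∧ b = b') (s : S) :
    ((univ : Finset Bool).filter fun b => RS e b s).card = if MS e s then 2 else 1 := by
  split_ifs with h
  · have : ((univ : Finset Bool).filter fun b => RS e b s) = univ := by
      ext b
      simp only [mem_filter, mem_univ, true_and, iff_true]
      intro c; exact h c _
    rw [this]; rfl
  · unfold MS at h
    push Not at h
    obtain ⟨c, b, hcb⟩ := h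
    have : ((univ : Finset Bool).filter fun b => RS e b s) = {b} := by
      ext b'
      simp only [mem_filter, mem_univ, true_and, mem_singleton]
      constructor
      · intro hb'
        by_contra hne
        have : b = !b' := by
          cases b <;> cases b' <;> simp_all
        exact hb' c (by rw [← this]; exact hcb)
      · rintro rfl c' hc'
        have := (he _ _ _ _ (hcb.symm.trans hc')).2
        cases b' <;> simp at this
    rw [this]; rfl

open Classical in
theorem RL_count (e : H → Bool → S)
    (he : ∀ c b c' b', e c b = e c' b' → c = c' ∧ b = b') (x : S ⊕ Bool) :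
    ((univ : Finset Bool).filter fun b => RL e b x).card = if ML e x then 2 else 1 := by
  cases x with
  | inl s => exact RS_count e he s
  | inr b' =>
    have h2 : ¬ ML e (Sum.inr b' : S ⊕ Bool) := fun h => h
    rw [if_neg h2]
    have : ((univ : Finset Bool).filter fun b => RL e b (Sum.inr b' : S ⊕ Bool)) = {b'} := by
      ext b
      simp only [mem_filter, mem_univ, true_and, mem_singleton]
      rfl
    rw [this]; rfl

/-- directed lines in B -/
noncomputable def lineSet (ρ : S → S) (B : Finset (D → S)) : Finset (D → S ⊕ Bool) := by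
  classical
  exact univ.filter fun l => (∃ i b, l i = Sum.inr b) ∧ ∀ x, pt ρ l x ∈ B

theorem mem_lineSet (ρ : S → S) (B : Finset (D → S)) (l : D → S ⊕ Bool) :
    l ∈ lineSet ρ B ↔ (∃ i b, l i = Sum.inr b) ∧ ∀ x, pt ρ l x ∈ B := by
  unfold lineSet
  rw [mem_filter]
  simp

theorem fill_toW (e : H → Bool → S) (ρ : S → S) (hρ : ∀ c b, ρ (e c b) = e c (!b))
    (g : D → Bool) (l : D → S ⊕ Bool) (hg : ∀ i, RL e (g i) (l i)) (c : H) :
    fill (fun i c => e c (g i)) (toW l) c = pt ρ l (e c false) := by
  funext i
  have h := hg i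
  simp only [fill, toW, pt]
  revert h
  rcases l i with s | b
  · intro _; rfl
  · intro h
    have h' : g i = b := h
    cases b
    · simp [h']
    · simp [h', hρ]

theorem mid_toW (ρ : S → S) (m : S) (hm : ρ m = m) (l : D → S ⊕ Bool) :
    (fun i => (toW l i).getD m) = pt ρ l m := by
  funext i
  simp only [toW, pt]
  rcases l i with s | b
  · rfl
  · cases b
    · rfl
    · exact hm.symm

theorem RS_pt (e : H → Bool → S) (he : ∀ c b c' b', e c b = e c' b' → c = c' ∧ b = b')
    (g : D → Bool) (l : D → S ⊕ Bool) (hg : ∀ i, RL e (g i) (l i)) (c : H) (i : D) :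
    RS e (g i) (fill (fun i c => e c (g i)) (toW l) c i) := by
  have h := hg i
  simp only [fill, toW]
  revert h
  rcases l i with s | b
  · intro h; exact h
  · intro h c' hc'
    have := (he _ _ _ _ hc').2
    revert this
    cases (g i) <;> simp

theorem toW_inj (e : H → Bool → S) (g : D → Bool) (l l' : D → S ⊕ Bool)
    (hg : ∀ i, RL e (g i) (l i)) (hg' : ∀ i, RL e (g i) (l' i)) (h : toW l = toW l') : l = l' := by
  funext i
  have h1 := hg i
  have h2 := hg' i
  have h3 := congrFun h i
  simp only [toW] at h3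
  revert h1 h2 h3
  rcases l i with s | b <;> rcases l' i with s' | b'
  · intro _ _ h; simp only [Option.some.injEq] at h; rw [h]
  · intro _ _ h; cases h
  · intro _ _ h; cases h
  · intro h1 h2 _
    have h1' : g i = b := h1
    have h2' : g i = b' := h2
    rw [← h1', h2']

theorem stars_toW_ne (l : D → S ⊕ Bool) (h : ∃ i b, l i = Sum.inr b) : (stars (toW l)).card ≠ 0 := by
  obtain ⟨i, b, hib⟩ := h
  rw [Ne, card_eq_zero, ← Ne, ← nonempty_iff_ne_empty]
  refine ⟨i, ?_⟩
  rw [stars, mem_filter]
  refine ⟨mem_univ _, ?_⟩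
  simp only [toW, hib]

/-- Even case. -/
theorem even_ineq (e : H → Bool → S) (he : ∀ c b c' b', e c b = e c' b' → c = c' ∧ b = b')
    (ρ : S → S) (hρ : ∀ c b, ρ (e c b) = e c (!b)) (hcov : ∀ s, ∃ c b, s = e c b)
    (hd : Fintype.card D ≤ Fintype.card H + 1) (hH : 0 < Fintype.card H)
    (hyp : ((Fintype.card H : ℝ) + 1) ^ Fintype.card D ≤
      2 * (Fintype.card H : ℝ) ^ Fintype.card D) (B : Finset (D → S)) :
    (lineSet ρ B).card ≤ B.card := by
  classical
  have h1 := dcount (RL e) (ML e) (RL_count e he) (lineSet ρ B)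
  have h2 := dcount (RS e) (MS e) (RS_count e he) B
  have hMS : ∀ s, ¬ MS e s := by
    intro s h
    obtain ⟨c, b, hcb⟩ := hcov s
    exact h c b hcb
  have hML : ∀ x, ¬ ML e x := by
    rintro (s | b)
    · exact hMS s
    · exact fun h => h
  rw [← Nat.cast_le (α := ℝ), h1, h2]
  apply sum_le_sum
  intro g _
  simp only [hMS, hML, filter_false, card_empty, pow_zero, sum_const, nsmul_eq_mul, mul_one]
  rw [Nat.cast_le]
  have he' : ∀ i, Function.Injective ((fun (i : D) (c : H) => e c (g i)) i) := by
    intro i c c' h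
    exact (he _ _ _ _ h).1
  have h3 := even_core (fun i c => e c (g i)) he' (B.filter (fun x => ∀ i, RS e (g i) (x i)))
    hd hH hyp
  refine le_trans ?_ h3
  apply card_le_card_of_injOn toW
  · intro l hl
    rw [mem_coe, mem_filter, mem_lineSet] at hl
    rw [mem_coe, mem_filter, LL, mem_filter]
    refine ⟨⟨mem_univ _, subset_univ _, ?_⟩, stars_toW_ne l hl.1.1⟩
    intro c
    rw [mem_filter]
    refine ⟨?_, RS_pt e he g l hl.2 c⟩
    rw [fill_toW e ρ hρ g l hl.2 c]
    exact hl.1.2 _
  · intro l hl l' hl' h
    rw [mem_coe, mem_filter] at hl hl'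
    exact toW_inj e g l l' hl.2 hl'.2 h

/-- Odd case. -/
theorem odd_ineq (e : H → Bool → S) (he : ∀ c b c' b', e c b = e c' b' → c = c' ∧ b = b')
    (ρ : S → S) (hρ : ∀ c b, ρ (e c b) = e c (!b)) (m : S) (hρm : ρ m = m)
    (hm : ∀ c b, e c b ≠ m) (hcov : ∀ s, s ≠ m → ∃ c b, s = e c b)
    (hd : Fintype.card D ≤ Fintype.card H + 1) (hH : 0 < Fintype.card H)
    (hyp : (2 * (Fintype.card H : ℝ) + 3) ^ Fintype.card D ≤
      2 * (2 * (Fintype.card H : ℝ) + 1) ^ Fintype.card D)
    (hyp2 : (1 + 1 / (Fintype.card H : ℝ)) ^ (Fintype.card D - 1) ≤ 2) (B : Finset (D → S)) :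
    (lineSet ρ B).card ≤ B.card := by
  classical
  have h1 := dcount (RL e) (ML e) (RL_count e he) (lineSet ρ B)
  have h2 := dcount (RS e) (MS e) (RS_count e he) B
  have hMS : ∀ s, MS e s ↔ s = m := by
    intro s
    constructor
    · intro h
      by_contra hs
      obtain ⟨c, b, hcb⟩ := hcov s hs
      exact h c b hcb
    · rintro rfl c b h
      exact hm c b h.symm
  rw [← Nat.cast_le (α := ℝ), h1, h2]
  apply sum_le_sum
  intro g _
  have he' : ∀ i, Function.Injective ((fun (i : D) (c : H) => e c (g i)) i) := by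
    intro i c c' h
    exact (he _ _ _ _ h).1
  have h3 := odd_core (fun i c => e c (g i)) he' m (fun i c => hm c (g i))
    (B.filter (fun x => ∀ i, RS e (g i) (x i))) hd hH hyp hyp2
  have h4 : ∑ x ∈ B.filter (fun x => ∀ i, RS e (g i) (x i)),
      (1 / 2 : ℝ) ^ ((univ : Finset D).filter fun i => MS e (x i)).card =
      ∑ p ∈ B.filter (fun x => ∀ i, RS e (g i) (x i)), (1 / 2 : ℝ) ^ (zer m p).card := by
    apply sum_congr rfl
    intro p _
    congr 2
    unfold zer
    apply filter_congr
    intro i _
    exact hMS _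
  rw [h4]
  refine le_trans ?_ h3
  have h5 : ∀ l : D → S ⊕ Bool, ((univ : Finset D).filter fun i => ML e (l i)) =
      zerw m (toW l) := by
    intro l
    ext i
    rw [mem_filter, zerw, mem_filter]
    simp only [mem_univ, true_and, toW]
    rcases l i with s | b
    · simp only [ML, Option.some.injEq]
      exact hMS s
    · simp [ML]
  simp only [h5]
  have hinj : Set.InjOn (toW (D := D) (S := S))
      (((lineSet ρ B).filter (fun x => ∀ i, RL e (g i) (x i)) : Finset (D → S ⊕ Bool)) :
        Set (D → S ⊕ Bool)) := by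
    intro l hl l' hl' h
    rw [mem_coe, mem_filter] at hl hl'
    exact toW_inj e g l l' hl.2 hl'.2 h
  rw [← sum_image (f := fun w : D → Option S => (1 / 2 : ℝ) ^ (zerw m w).card) hinj]
  apply sum_le_sum_of_subset_of_nonneg
  · intro w hw
    rw [mem_image] at hw
    obtain ⟨l, hl, rfl⟩ := hw
    rw [mem_filter, mem_lineSet] at hl
    rw [WW, mem_filter]
    refine ⟨mem_univ _, stars_toW_ne l hl.1.1, ?_, ?_⟩
    · intro c
      rw [mem_filter]
      refine ⟨?_, RS_pt e he g l hl.2 c⟩
      rw [fill_toW e ρ hρ g l hl.2 c]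
      exact hl.1.2 _
    · rw [mem_filter]
      refine ⟨?_, ?_⟩
      · rw [mid_toW ρ m hρm l]
        exact hl.1.2 _
      · intro i
        have h := hl.2 i
        simp only [toW]
        revert h
        rcases l i with s | b
        · intro h; exact h
        · intro _ c hc
          exact hm _ _ hc.symm
  · intro w _ _
    positivity

end chamber

end Pool.Agent.H989R2
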