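import Mathlib

set_option autoImplicit false
set_option linter.unusedSectionVars false
set_option linter.unusedVariables false

namespace Pool.Agent.H989R2

open Finset

section core

variable {D S H : Type} [Fintype D] [DecidableEq D] [Fintype S] [DecidableEq S]
  [Fintype H] [DecidableEq H]

/-- Fill the stars (`none`) of a word by the letter `c`; in coordinate `i` the letter `c` is
the symbol `e i c`. -/
def fill (e : D → H → S) (w : D → Option S) (c : H) : D → S := fun i => (w i).getD (e i c)

/-- The star set of a word. -/
def stars (w : D → Option S) : Finset D := univ.filter fun i => w i = none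

/-- Words with star set inside `K`, all of whose fills are in `B`. -/
def LL (e : D → H → S) (K : Finset D) (B : Finset (D → S)) : Finset (D → Option S) :=
  univ.filter fun w => stars w ⊆ K ∧ ∀ c, fill e w c ∈ B

/-- number of coordinates in `K` at which `v` carries the letter `c`. -/
def mult (e : D → H → S) (K : Finset D) (v : D → S) (c : H) : ℕ :=
  (K.filter fun i => v i = e i c).card

/-- letters present in `v` on `K`. -/
def letters (e : D → H → S) (K : Finset D) (v : D → S) : Finset H :=
  univ.filter fun c => 0 < mult e K v c

/-- letters absent from the word `w` on `K`. -/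
def absent (e : D → H → S) (K : Finset D) (w : D → Option S) : Finset H :=
  univ.filter fun c => ∀ i ∈ K, w i ≠ some (e i c)

theorem fill_eq_iff (e : D → H → S) (he : ∀ i, Function.Injective (e i)) (K : Finset D)
    (w : D → Option S) (c : H) (hc : ∀ i ∈ K, w i ≠ some (e i c)) (hK : stars w ⊆ K) :
    (K.filter fun i => fill e w c i = e i c) = stars w := by
  ext i
  simp only [mem_filter, stars, mem_univ, true_and]
  constructor
  · rintro ⟨hi, h⟩
    cases hw : w i with
    | none => rfl
    | some s =>
      exfalso
      simp only [fill, hw, Option.getD_some] at h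
      exact hc i hi (by rw [hw, h])
  · intro h
    refine ⟨hK (by simp [stars, h]), ?_⟩
    simp [fill, h]

theorem letters_fill (e : D → H → S) (he : ∀ i, Function.Injective (e i)) (K : Finset D)
    (w : D → Option S) (c : H) (hc : c ∈ absent e K w) (hK : stars w ⊆ K)
    (hs : (stars w).Nonempty) :
    letters e K (fill e w c) = insert c (absent e K w)ᶜ := by
  ext c'
  simp only [letters, mem_filter, mem_univ, true_and, mem_insert, mem_compl, absent, mult,
    card_pos]
  constructor
  · rintro ⟨i, hi⟩
    rw [mem_filter] at hi
    obtain ⟨hiK, hi⟩ := hi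
    cases hw : w i with
    | none =>
      left
      simp only [fill, hw, Option.getD_none] at hi
      exact (he i hi).symm
    | some s =>
      right
      simp only [fill, hw, Option.getD_some] at hi
      push Not
      exact ⟨i, hiK, by rw [hw, hi]⟩
  · rintro (rfl | h)
    · obtain ⟨i, hi⟩ := hs
      refine ⟨i, ?_⟩
      rw [mem_filter]
      refine ⟨hK hi, ?_⟩
      simp only [stars, mem_filter, mem_univ, true_and] at hi
      simp [fill, hi]
    · push Not at h
      obtain ⟨i, hiK, hi⟩ := h
      refine ⟨i, ?_⟩
      rw [mem_filter]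
      refine ⟨hiK, ?_⟩
      simp [fill, hi]

theorem card_letters_fill (e : D → H → S) (he : ∀ i, Function.Injective (e i)) (K : Finset D)
    (w : D → Option S) (c : H) (hc : c ∈ absent e K w) (hK : stars w ⊆ K)
    (hs : (stars w).Nonempty) :
    (letters e K (fill e w c)).card + (absent e K w).card = Fintype.card H + 1 := by
  rw [letters_fill e he K w c hc hK hs, card_insert_of_notMem (by simpa using hc), card_compl]
  have : (absent e K w).card ≤ Fintype.card H := card_le_univ _
  omega

theorem sum_mult_le (e : D → H → S) (he : ∀ i, Function.Injective (e i)) (K : Finset D)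
    (v : D → S) : ∑ c, mult e K v c ≤ K.card := by
  classical
  unfold mult
  rw [← card_biUnion]
  · apply card_le_card
    intro i hi
    rw [mem_biUnion] at hi
    obtain ⟨c, _, hi⟩ := hi
    exact (mem_filter.1 hi).1
  · intro c _ c' _ hcc
    rw [Function.onFun, disjoint_left]
    intro i hi hi'
    rw [mem_filter] at hi hi'
    exact hcc (he i (hi.2.symm.trans hi'.2))

theorem card_present_le (e : D → H → S) (he : ∀ i, Function.Injective (e i)) (K : Finset D)
    (w : D → Option S) (hK : stars w ⊆ K) :
    Fintype.card H + (stars w).card ≤ K.card + (absent e K w).card := by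
  classical
  have h1 : ((absent e K w)ᶜ).card ≤ (K \ stars w).card := by
    have hex : ∀ c : H, c ∈ (absent e K w)ᶜ → ∃ i, i ∈ K ∧ w i = some (e i c) := by
      intro c hc
      simp only [absent, mem_compl, mem_filter, mem_univ, true_and] at hc
      push Not at hc
      exact hc
    rcases isEmpty_or_nonempty D with hD | hD
    · have : (absent e K w)ᶜ = ∅ := by
        rw [eq_empty_iff_forall_notMem]
        intro c hc
        obtain ⟨i, _⟩ := hex c hc
        exact hD.elim i
      rw [this]; simp
    choose! φ hφ using hex
    apply card_le_card_of_injOn φ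
    · intro c hc
      have := hφ c hc
      simp only [coe_sdiff, Set.mem_sdiff, mem_coe]
      refine ⟨this.1, ?_⟩
      simp [stars, this.2]
    · intro c hc c' hc' hcc
      have h1 := (hφ c hc).2
      have h2 := (hφ c' hc').2
      rw [hcc, h2] at h1
      exact (he _ (Option.some_injective _ h1)).symm
  have h2 : (K \ stars w).card = K.card - (stars w).card := card_sdiff_of_subset hK
  have h3 : (stars w).card ≤ K.card := card_le_card hK
  rw [card_compl] at h1
  have : (absent e K w).card ≤ Fintype.card H := card_le_univ _
  omega

/-- the no-star words are the points. -/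
theorem card_nostar (e : D → H → S) (K : Finset D) (B : Finset (D → S))
    (hH : 0 < Fintype.card H) :
    ((LL e K B).filter fun w => (stars w).card = 0).card = B.card := by
  classical
  obtain ⟨c₀⟩ : Nonempty H := Fintype.card_pos_iff.1 hH
  have key : ∀ w : D → Option S, (stars w).card = 0 → ∀ i, ∃ s, w i = some s := by
    intro w hw i
    cases h : w i with
    | some s => exact ⟨s, rfl⟩
    | none =>
      rw [card_eq_zero] at hw
      have : i ∈ stars w := by simp [stars, h]
      rw [hw] at this
      exact absurd this (notMem_empty i)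
  refine card_nbij' (fun w => fill e w c₀) (fun p => fun i => some (p i)) ?_ ?_ ?_ ?_
  · intro w hw
    rw [mem_coe, mem_filter, LL, mem_filter] at hw
    exact hw.1.2.2 c₀
  · intro p hp
    rw [mem_coe, mem_filter, LL, mem_filter]
    have h1 : stars (fun i => some (p i)) = (∅ : Finset D) := by
      ext i; simp [stars]
    refine ⟨⟨mem_univ _, ?_, ?_⟩, ?_⟩
    · rw [h1]; exact empty_subset _
    · intro c
      have : fill e (fun i => some (p i)) c = p := by
        funext i; simp [fill]
      rw [this]; exact hp
    · rw [h1]; rfl
  · intro w hw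
    rw [mem_coe, mem_filter] at hw
    funext i
    obtain ⟨s, hs⟩ := key w hw.2 i
    simp [fill, hs]
  · intro p hp
    funext i
    simp [fill]

/-- The basic inequality (uniform splitting of the demand among the absent letters). -/
theorem A1 (e : D → H → S) (he : ∀ i, Function.Injective (e i)) (K : Finset D)
    (B : Finset (D → S)) (hK : K.card ≤ Fintype.card H + 1) (hH : 0 < Fintype.card H) :
    ∑ w ∈ LL e K B, (((Fintype.card H : ℝ) + 1) * (stars w).card - K.card) ≤ 0 := by
  classical
  set h : ℝ := (Fintype.card H : ℝ) with hh
  set k : ℝ := (K.card : ℝ) with hk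
  have hkh : k ≤ h + 1 := by rw [hk, hh]; exact_mod_cast hK
  have hk0 : 0 ≤ k := by rw [hk]; positivity
  have hhpos : 0 < h := by rw [hh]; exact_mod_cast hH
  -- split
  rw [← sum_filter_add_sum_filter_not (LL e K B) (fun w => (stars w).card = 0)]
  have hno : ∑ w ∈ (LL e K B).filter (fun w => (stars w).card = 0),
      ((h + 1) * ((stars w).card : ℝ) - k) = - (k * B.card) := by
    rw [← card_nostar e K B hH, ← nsmul_eq_mul', ← sum_const, ← sum_neg_distrib]
    apply sum_congr rfl
    intro w hw
    rw [mem_filter] at hw
    rw [hw.2]; simp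
  rw [hno]
  set P := (LL e K B).filter (fun w => ¬ (stars w).card = 0) with hP
  -- step 1
  have step1 : ∑ w ∈ P, ((h + 1) * ((stars w).card : ℝ) - k) ≤
      ∑ w ∈ P, ∑ c ∈ absent e K w,
        ((h + 1) * ((stars w).card : ℝ) - k) / ((absent e K w).card : ℝ) := by
    apply sum_le_sum
    intro w hw
    rw [hP, mem_filter, LL, mem_filter] at hw
    rw [sum_const, nsmul_eq_mul]
    rcases Nat.eq_zero_or_pos (absent e K w).card with h0 | hpos
    · rw [h0]
      have := card_present_le e he K w hw.1.2.1
      rw [h0] at this
      have h2 : h + ((stars w).card : ℝ) ≤ k := by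
        rw [hh, hk]; exact_mod_cast this
      have h3 : (h + 1) * ((stars w).card : ℝ) - k ≤ (h + 1) * (k - h) - k := by
        have : ((stars w).card : ℝ) ≤ k - h := by linarith
        have := mul_le_mul_of_nonneg_left this (by linarith : 0 ≤ h + 1)
        linarith
      have h4 : (h + 1) * (k - h) - k ≤ 0 := by
        have : (h + 1) * (k - h) - k = h * (k - h - 1) := by ring
        rw [this]
        exact mul_nonpos_of_nonneg_of_nonpos hhpos.le (by linarith)
      simp only [Nat.cast_zero, zero_mul]
      linarith
    · rw [mul_div_cancel₀]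
      exact_mod_cast hpos.ne'
  -- step 2
  let F : (_ : D → S) × H → ℝ := fun x =>
    ((h + 1) * (mult e K x.1 x.2 : ℝ) - k) / (h + 1 - ((letters e K x.1).card : ℝ))
  have step2 : ∑ w ∈ P, ∑ c ∈ absent e K w,
        ((h + 1) * ((stars w).card : ℝ) - k) / ((absent e K w).card : ℝ) =
      ∑ x ∈ (P.sigma fun w => absent e K w), F ⟨fill e x.1 x.2, x.2⟩ := by
    rw [sum_sigma]
    apply sum_congr rfl
    intro w hw
    apply sum_congr rfl
    intro c hc
    rw [hP, mem_filter, LL, mem_filter] at hw
    have hne : (stars w).Nonempty := by
      rw [← card_pos]; omega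
    have h1 := card_letters_fill e he K w c hc hw.1.2.1 hne
    have h2 : mult e K (fill e w c) c = (stars w).card := by
      unfold mult
      rw [fill_eq_iff e he K w c (by simpa [absent] using hc) hw.1.2.1]
    simp only [F]
    rw [h2]
    congr 1
    have : ((letters e K (fill e w c)).card : ℝ) + ((absent e K w).card : ℝ) = h + 1 := by
      rw [hh]; exact_mod_cast h1
    linarith
  have hinj : ∀ x ∈ (P.sigma fun w => absent e K w), ∀ y ∈ (P.sigma fun w => absent e K w),
      (⟨fill e x.1 x.2, x.2⟩ : (_ : D → S) × H) = ⟨fill e y.1 y.2, y.2⟩ → x = y := by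
    rintro ⟨w, c⟩ hx ⟨w', c'⟩ hy hxy
    simp only [mem_sigma] at hx hy
    simp only [Sigma.mk.injEq] at hxy
    obtain ⟨h1, h2⟩ := hxy
    have h2' : c = c' := by simpa using h2
    subst h2'
    rw [hP, mem_filter, LL, mem_filter] at hx hy
    have e1 := fill_eq_iff e he K w c (by simpa [absent] using hx.2) hx.1.1.2.1
    have e2 := fill_eq_iff e he K w' c (by simpa [absent] using hy.2) hy.1.1.2.1
    rw [h1, e2] at e1
    congr 1
    funext i
    have hi := congrFun h1 i
    by_cases hs : i ∈ stars w
    · have hs' : i ∈ stars w' := by rw [e1]; exact hs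
      simp only [stars, mem_filter, mem_univ, true_and] at hs hs'
      rw [hs, hs']
    · have hs' : i ∉ stars w' := by rw [e1]; exact hs
      simp only [stars, mem_filter, mem_univ, true_and] at hs hs'
      obtain ⟨a, ha⟩ := Option.ne_none_iff_exists'.1 hs
      obtain ⟨b, hb⟩ := Option.ne_none_iff_exists'.1 hs'
      simp only [fill, ha, hb, Option.getD_some] at hi
      rw [ha, hb, hi]
  have step3 : ∑ x ∈ (P.sigma fun w => absent e K w), F ⟨fill e x.1 x.2, x.2⟩ ≤
      ∑ y ∈ (B.sigma fun v => letters e K v), F y := by
    rw [← sum_image (f := F) (g := fun x : (_ : D → Option S) × H =>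
      (⟨fill e x.1 x.2, x.2⟩ : (_ : D → S) × H)) hinj]
    apply sum_le_sum_of_subset_of_nonneg
    · intro y hy
      rw [mem_image] at hy
      obtain ⟨⟨w, c⟩, hx, rfl⟩ := hy
      simp only [mem_sigma] at hx
      have hw := hx.1
      rw [hP, mem_filter, LL, mem_filter] at hw
      have hne : (stars w).Nonempty := by
        rw [← card_pos]; omega
      simp only [mem_sigma]
      refine ⟨hw.1.2.2 c, ?_⟩
      rw [letters_fill e he K w c hx.2 hw.1.2.1 hne]
      exact mem_insert_self _ _
    · rintro ⟨v, c⟩ hy _
      simp only [mem_sigma] at hy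
      simp only [F]
      have hc := hy.2
      simp only [letters, mem_filter, mem_univ, true_and] at hc
      apply div_nonneg
      · have : (1 : ℝ) ≤ (mult e K v c : ℝ) := by exact_mod_cast hc
        have := mul_le_mul_of_nonneg_left this (by linarith : 0 ≤ h + 1)
        linarith
      · have : ((letters e K v).card : ℝ) ≤ h := by
          rw [hh]; exact_mod_cast card_le_univ _
        linarith
  have step4 : ∑ y ∈ (B.sigma fun v => letters e K v), F y ≤ k * B.card := by
    rw [sum_sigma, ← nsmul_eq_mul', ← sum_const]
    apply sum_le_sum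
    intro v hv
    simp only [F]
    rw [← sum_div, sum_sub_distrib, sum_const, ← mul_sum, nsmul_eq_mul]
    have hl : ((letters e K v).card : ℝ) ≤ h := by
      rw [hh]; exact_mod_cast card_le_univ _
    rw [div_le_iff₀ (by linarith)]
    have h1 : ∑ c ∈ letters e K v, (mult e K v c : ℝ) ≤ k := by
      have h2 : ∑ c ∈ letters e K v, mult e K v c ≤ K.card :=
        (sum_le_sum_of_subset (subset_univ _)).trans (sum_mult_le e he K v)
      rw [hk]
      exact_mod_cast h2
    have := mul_le_mul_of_nonneg_left h1 (by linarith : 0 ≤ h + 1)
    nlinarith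
  linarith

end core

end Pool.Agent.H989R2
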