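import Pool.Agent.H989R2.Chamber

set_option autoImplicit false
set_option linter.unusedSectionVars false
set_option linter.unusedVariables false

namespace Pool.Agent.H989R2

open Finset

section hall

variable {D S : Type} [Fintype D] [DecidableEq D] [Fintype S] [DecidableEq S]

/-- reverse a directed line -/
def revL (l : D → S ⊕ Bool) : D → S ⊕ Bool := fun i =>
  match l i with
  | Sum.inl s => Sum.inl s
  | Sum.inr b => Sum.inr (!b)

theorem revL_revL (l : D → S ⊕ Bool) : revL (revL l) = l := by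
  funext i
  simp only [revL]
  rcases l i with s | b
  · rfl
  · simp

theorem pt_revL (ρ : S → S) (hρ : ∀ s, ρ (ρ s) = s) (l : D → S ⊕ Bool) (x : S) :
    pt ρ (revL l) x = pt ρ l (ρ x) := by
  funext i
  simp only [pt, revL]
  rcases l i with s | b
  · rfl
  · cases b
    · rfl
    · simp [hρ]

theorem matching (ρ : S → S) (hρ : ∀ s, ρ (ρ s) = s)
    (hB : ∀ B : Finset (D → S), (lineSet ρ B).card ≤ B.card) :
    ∃ G : SimpleGraph (D → S), (∀ x y z, G.Adj x y → G.Adj x z → y = z) ∧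
      ∀ l : D → S ⊕ Bool, (∃ i b, l i = Sum.inr b) → ∃ a b : S, G.Adj (pt ρ l a) (pt ρ l b) := by
  classical
  let I := {l : D → S ⊕ Bool // ∃ i b, l i = Sum.inr b}
  let t : I → Finset (D → S) := fun l => univ.image (pt ρ l.1)
  have hall : ∀ F : Finset I, F.card ≤ (F.biUnion t).card := by
    intro F
    refine le_trans ?_ (hB (F.biUnion t))
    apply card_le_card_of_injOn (fun l => l.1)
    · intro l hl
      rw [mem_coe, mem_lineSet]
      refine ⟨l.2, ?_⟩
      intro x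
      rw [mem_biUnion]
      exact ⟨l, hl, mem_image_of_mem _ (mem_univ x)⟩
    · intro l _ l' _ h
      exact Subtype.ext h
  obtain ⟨φ, hφi, hφ⟩ := (Finset.all_card_le_biUnion_card_iff_exists_injective t).1 hall
  have hrevmem : ∀ l : D → S ⊕ Bool, (∃ i b, l i = Sum.inr b) →
      (∃ i b, revL l i = Sum.inr b) := by
    rintro l ⟨i, b, h⟩
    exact ⟨i, !b, by simp only [revL, h]⟩
  let r : I → I := fun l => ⟨revL l.1, hrevmem l.1 l.2⟩
  have hrr : ∀ l, r (r l) = l := by
    intro l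
    apply Subtype.ext
    exact revL_revL _
  have hrne : ∀ l, r l ≠ l := by
    intro l h
    obtain ⟨i, b, hib⟩ := l.2
    have h1 : revL l.1 = l.1 := congrArg Subtype.val h
    have h2 := congrFun h1 i
    simp only [revL, hib, Sum.inr.injEq] at h2
    cases b <;> simp at h2
  let G : SimpleGraph (D → S) :=
    { Adj := fun x y => ∃ l : I, x = φ l ∧ y = φ (r l)
      symm := by
        constructor
        rintro x y ⟨l, rfl, rfl⟩
        exact ⟨r l, rfl, by rw [hrr]⟩
      loopless := by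
        constructor
        rintro x ⟨l, h1, h2⟩
        exact hrne l (hφi (h2.symm.trans h1)) }
  refine ⟨G, ?_, ?_⟩
  · rintro x y z ⟨l, h1, h2⟩ ⟨l', h1', h2'⟩
    have : l = l' := hφi (h1.symm.trans h1')
    rw [h2, h2', this]
  · intro l hl
    have m1 := hφ ⟨l, hl⟩
    have m2 := hφ (r ⟨l, hl⟩)
    simp only [t, mem_image, mem_univ, true_and] at m1 m2
    obtain ⟨a, ha⟩ := m1
    obtain ⟨b, hb⟩ := m2
    have hb' : pt ρ l (ρ b) = φ (r ⟨l, hl⟩) := by
      rw [← hb, ← pt_revL ρ hρ l b]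
    exact ⟨a, ρ b, ⟨l, hl⟩, ha, hb'⟩

end hall

/-- the reflected letters. -/
def eF (n h : ℕ) (hn : 2 * h ≤ n) (c : Fin h) (b : Bool) : Fin n :=
  if b then ⟨n - 1 - c.1, by have := c.2; omega⟩ else ⟨c.1, by have := c.2; omega⟩

theorem eF_inj (n h : ℕ) (hn : 2 * h ≤ n) :
    ∀ c b c' b', eF n h hn c b = eF n h hn c' b' → c = c' ∧ b = b' := by
  intro c b c' b' hh
  have h1 := c.2
  have h2 := c'.2
  cases b <;> cases b' <;> simp [eF, Fin.ext_iff] at hh ⊢ <;> omega

theorem rev_eF (n h : ℕ) (hn : 2 * h ≤ n) (c : Fin h) (b : Bool) :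
    Fin.rev (eF n h hn c b) = eF n h hn c (!b) := by
  have h1 := c.2
  cases b <;> simp [eF, Fin.ext_iff, Fin.val_rev] <;> omega

theorem bernoulli_d (W : ℝ) (hW : 0 < W) (d : ℕ) (hyp : (W + 1) ^ d ≤ 2 * W ^ d) : (d : ℝ) ≤ W := by
  have h1 : (1 + 1 / W) ^ d ≤ 2 := by
    have a1 : 1 + 1 / W = (W + 1) / W := by field_simp
    rw [a1, div_pow, div_le_iff₀ (by positivity)]
    exact hyp
  have h2 := one_add_mul_le_pow (a := 1 / W) (by have : 0 < 1 / W := by positivity
                                                 linarith) d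
  have h3 : (d : ℝ) * (1 / W) ≤ 1 := by linarith
  rw [mul_one_div, div_le_iff₀ hW] at h3
  linarith

/-- `(1+1/h)^(d-1) ≤ 2` from the odd hypothesis. -/
theorem kappa_le (h d : ℕ) (hh : 0 < h) (hd : d ≤ h) (hd0 : d ≠ 0)
    (hyp : (2 * (h : ℝ) + 3) ^ d ≤ 2 * (2 * (h : ℝ) + 1) ^ d) :
    (1 + 1 / (h : ℝ)) ^ (d - 1) ≤ 2 := by
  have hpos : (0 : ℝ) < h := by exact_mod_cast hh
  have hdr : (d : ℝ) ≤ h := by exact_mod_cast hd
  obtain ⟨k, rfl⟩ := Nat.exists_eq_succ_of_ne_zero hd0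
  simp only [Nat.succ_eq_add_one, Nat.add_sub_cancel] at hyp ⊢
  have hk : (k : ℝ) ≤ h - 1 := by push_cast at hdr; linarith
  -- q = h (2h+3) / ((h+1)(2h+1)) = 1 - 1/((h+1)(2h+1));  (1+1/h) * q = (2h+3)/(2h+1)
  set q : ℝ := 1 - 1 / (((h : ℝ) + 1) * (2 * h + 1)) with hq
  have hq0 : (1 + 1 / (h : ℝ)) * q = (2 * h + 3) / (2 * h + 1) := by
    rw [hq]; field_simp; ring
  have hb := one_add_mul_le_pow (a := - (1 / (((h : ℝ) + 1) * (2 * h + 1)))) (by
    have : 1 / (((h : ℝ) + 1) * (2 * h + 1)) ≤ 1 := by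
      rw [div_le_one (by positivity)]
      nlinarith
    linarith) k
  have hq1 : (1 : ℝ) + - (1 / (((h : ℝ) + 1) * (2 * h + 1))) = q := by rw [hq]; ring
  rw [hq1] at hb
  have hqlow : (2 * (h : ℝ) + 1) / (2 * h + 3) ≤ q ^ k := by
    refine le_trans ?_ hb
    have e1 : 1 + (k : ℝ) * - (1 / (((h : ℝ) + 1) * (2 * h + 1))) =
        1 - k / (((h : ℝ) + 1) * (2 * h + 1)) := by ring
    rw [e1]
    have e2 : (k : ℝ) / (((h : ℝ) + 1) * (2 * h + 1)) ≤ 2 / (2 * h + 3) := by
      rw [div_le_div_iff₀ (by positivity) (by positivity)]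
      nlinarith
    have e3 : (2 * (h : ℝ) + 1) / (2 * h + 3) = 1 - 2 / (2 * h + 3) := by field_simp; ring
    rw [e3]; linarith
  have hmain : ((2 * (h : ℝ) + 3) / (2 * h + 1)) ^ (k + 1) ≤ 2 := by
    rw [div_pow, div_le_iff₀ (by positivity)]
    exact hyp
  -- (1+1/h)^k * q^k = ((2h+3)/(2h+1))^k
  have h5 : (1 + 1 / (h : ℝ)) ^ k * q ^ k = ((2 * (h : ℝ) + 3) / (2 * h + 1)) ^ k := by
    rw [← mul_pow, hq0]
  have h6 : (1 + 1 / (h : ℝ)) ^ k * ((2 * (h : ℝ) + 1) / (2 * h + 3)) ≤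
      ((2 * (h : ℝ) + 3) / (2 * h + 1)) ^ k := by
    rw [← h5]
    exact mul_le_mul_of_nonneg_left hqlow (by positivity)
  have h7 : (1 + 1 / (h : ℝ)) ^ k ≤
      ((2 * (h : ℝ) + 3) / (2 * h + 1)) ^ k * ((2 * (h : ℝ) + 3) / (2 * h + 1)) := by
    have : (1 + 1 / (h : ℝ)) ^ k = (1 + 1 / (h : ℝ)) ^ k * ((2 * (h : ℝ) + 1) / (2 * h + 3)) *
        ((2 * (h : ℝ) + 3) / (2 * h + 1)) := by
      field_simp
    rw [this]
    exact mul_le_mul_of_nonneg_right h6 (by positivity)
  rw [← pow_succ] at h7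
  linarith

theorem hall_fin (n d : ℕ) (hd0 : d ≠ 0) (hyp : (n + 2) ^ d ≤ 2 * n ^ d)
    (B : Finset (Fin d → Fin n)) : (lineSet Fin.rev B).card ≤ B.card := by
  have hn0 : 0 < n := by
    rcases Nat.eq_zero_or_pos n with h | h
    · subst h
      rw [zero_pow hd0] at hyp
      have : 0 < (0 + 2) ^ d := by positivity
      omega
    · exact h
  have hypR : ((n : ℝ) + 2) ^ d ≤ 2 * (n : ℝ) ^ d := by exact_mod_cast hyp
  have hnR : (0 : ℝ) < n := by exact_mod_cast hn0
  have hdn : (d : ℝ) ≤ n / 2 := by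
    apply bernoulli_d (n / 2) (by positivity)
    have e1 : (n : ℝ) / 2 + 1 = (n + 2) / 2 := by ring
    rw [e1, div_pow, div_pow, ← mul_div_assoc]
    exact div_le_div_of_nonneg_right hypR (by positivity)
  have h2d : 2 * d ≤ n := by
    have : (2 : ℝ) * d ≤ n := by linarith
    exact_mod_cast this
  rcases Nat.even_or_odd' n with ⟨h, hn | hn⟩
  · subst hn
    have hh : 0 < h := by omega
    have hhR : (0 : ℝ) < h := by exact_mod_cast hh
    apply even_ineq (eF (2 * h) h le_rfl) (eF_inj _ _ _) Fin.rev (rev_eF _ _ _)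
    · intro s
      have hs := s.2
      by_cases hlt : s.1 < h
      · exact ⟨⟨s.1, hlt⟩, false, by simp [eF]⟩
      · refine ⟨⟨2 * h - 1 - s.1, by omega⟩, true, ?_⟩
        simp only [eF, Fin.ext_iff, if_true]
        omega
    · rw [Fintype.card_fin, Fintype.card_fin]; omega
    · rw [Fintype.card_fin]; exact hh
    · rw [Fintype.card_fin, Fintype.card_fin]
      push_cast at hypR
      have e1 : (2 * (h : ℝ) + 2) = 2 * (h + 1) := by ring
      rw [e1, mul_pow, mul_pow] at hypR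
      have e2 : (0 : ℝ) < 2 ^ d := by positivity
      have e3 : (2 : ℝ) ^ d * ((h : ℝ) + 1) ^ d ≤ 2 ^ d * (2 * (h : ℝ) ^ d) := by linarith
      exact le_of_mul_le_mul_left e3 e2
  · subst hn
    have hh : 0 < h := by omega
    have hdh : d ≤ h := by omega
    have hypo : (2 * (h : ℝ) + 3) ^ d ≤ 2 * (2 * (h : ℝ) + 1) ^ d := by
      push_cast at hypR
      have e1 : (2 * (h : ℝ) + 1 + 2) = 2 * h + 3 := by ring
      rw [e1] at hypR
      exact hypR
    apply odd_ineq (eF (2 * h + 1) h (by omega)) (eF_inj _ _ _) Fin.rev (rev_eF _ _ _)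
      ⟨h, by omega⟩
    · simp [Fin.ext_iff, Fin.val_rev]; omega
    · intro c b hcb
      have hc := c.2
      cases b <;> simp [eF, Fin.ext_iff] at hcb <;> omega
    · intro s hsne
      have hs := s.2
      have hsne' : s.1 ≠ h := by
        intro hcon; apply hsne; exact Fin.ext hcon
      by_cases hlt : s.1 < h
      · exact ⟨⟨s.1, hlt⟩, false, by simp [eF]⟩
      · refine ⟨⟨2 * h - s.1, by omega⟩, true, ?_⟩
        simp only [eF, Fin.ext_iff, if_true]
        omega
    · rw [Fintype.card_fin, Fintype.card_fin]; omega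
    · rw [Fintype.card_fin]; exact hh
    · rw [Fintype.card_fin, Fintype.card_fin]; exact hypo
    · rw [Fintype.card_fin, Fintype.card_fin]; exact kappa_le h d hh hdh hd0 hypo

end Pool.Agent.H989R2
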