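import Pool.Agent.H989R2.Thin

set_option autoImplicit false
set_option linter.unusedSectionVars false
set_option linter.unusedVariables false

namespace Pool.Agent.H989R2

open Finset

section odd

variable {D S H : Type} [Fintype D] [DecidableEq D] [Fintype S] [DecidableEq S]
  [Fintype H] [DecidableEq H]

theorem sum_kappa (e : D → H → S) (he : ∀ i, Function.Injective (e i))
    (B : Finset (D → S)) (hd : Fintype.card D ≤ Fintype.card H + 1) (hH : 0 < Fintype.card H) :
    ∑ w ∈ LL e univ B, (1 / 2 : ℝ) ^ (stars w).card *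
      ((1 + 1 / (Fintype.card H : ℝ)) ^ (Fintype.card D - (stars w).card) - 1) ≤
    ((1 + 3 / (2 * (Fintype.card H : ℝ))) ^ Fintype.card D -
      (1 + 1 / (2 * (Fintype.card H : ℝ))) ^ Fintype.card D) * B.card := by
  classical
  have hhpos : (0 : ℝ) < Fintype.card H := by exact_mod_cast hH
  set h : ℝ := (Fintype.card H : ℝ) with hh
  set d := Fintype.card D with hdd
  have hcard : (univ : Finset D).card = d := card_univ
  -- total sum
  have tot : ∑ w ∈ LL e univ B, (1 / 2 : ℝ) ^ (stars w).card *
      (1 + 1 / h) ^ (d - (stars w).card) =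
      ∑ T ∈ (univ : Finset D).powerset, (1 / h) ^ (d - T.card) * TT e T B (1 / 2) := by
    have : ∀ T ∈ (univ : Finset D).powerset, (1 / h) ^ (d - T.card) * TT e T B (1 / 2) =
        ∑ w ∈ LL e T B, (1 / h) ^ (d - T.card) * (1 / 2 : ℝ) ^ (stars w).card := by
      intro T _
      rw [TT, mul_sum]
    rw [sum_congr rfl this, sum_comm' (LL_comm e univ B)]
    apply sum_congr rfl
    intro w hw
    rw [← sum_mul]
    have := icc_sum (stars w) univ (subset_univ _) 1 (1 / h)
    rw [hcard] at this
    simp only [one_pow, one_mul] at this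
    rw [this]; ring
  have hsplit : ∑ w ∈ LL e univ B, (1 / 2 : ℝ) ^ (stars w).card *
      ((1 + 1 / h) ^ (d - (stars w).card) - 1) =
      ∑ T ∈ (univ : Finset D).powerset.erase univ, (1 / h) ^ (d - T.card) * TT e T B (1 / 2) := by
    have h1 : ∑ w ∈ LL e univ B, (1 / 2 : ℝ) ^ (stars w).card *
        ((1 + 1 / h) ^ (d - (stars w).card) - 1) =
        ∑ w ∈ LL e univ B, (1 / 2 : ℝ) ^ (stars w).card *
      (1 + 1 / h) ^ (d - (stars w).card) - TT e univ B (1 / 2) := by
      rw [TT, ← sum_sub_distrib]
      apply sum_congr rfl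
      intro w _; ring
    rw [h1, tot, ← add_sum_erase _ _ (mem_powerset_self (univ : Finset D)), hcard]
    simp
  rw [hsplit]
  have hle : ∑ T ∈ (univ : Finset D).powerset.erase univ,
      (1 / h) ^ (d - T.card) * TT e T B (1 / 2) ≤
      ∑ T ∈ (univ : Finset D).powerset.erase univ,
      ((1 + 1 / (2 * h)) ^ T.card * (1 / h) ^ (d - T.card)) * B.card := by
    apply sum_le_sum
    intro T _
    have hT : T.card ≤ Fintype.card H + 1 := by
      have : T.card ≤ d := card_le_univ _
      omega
    have := TT_le e he T B hT hH (1 / 2) (by norm_num) (by norm_num)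
    rw [← hh] at this
    have e1 : (1 : ℝ) / 2 / h = 1 / (2 * h) := by field_simp
    rw [e1] at this
    have h2 := mul_le_mul_of_nonneg_left this (by positivity : 0 ≤ (1 / h) ^ (d - T.card))
    calc _ ≤ _ := h2
      _ = _ := by ring
  refine hle.trans (le_of_eq ?_)
  rw [← sum_mul]
  congr 1
  have e2 := sum_pow_mul_eq_add_pow (1 + 1 / (2 * h)) (1 / h) (univ : Finset D)
  rw [← add_sum_erase _ _ (mem_powerset_self (univ : Finset D)), hcard] at e2
  simp only [Nat.sub_self, pow_zero, mul_one] at e2
  have e3 : 1 + 1 / (2 * h) + 1 / h = 1 + 3 / (2 * h) := by field_simp; ring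
  rw [e3] at e2
  linarith

theorem threshold (e : D → H → S) (he : ∀ i, Function.Injective (e i))
    (B : Finset (D → S)) (hd : Fintype.card D ≤ Fintype.card H + 1) (hH : 0 < Fintype.card H)
    (hyp : (2 * (Fintype.card H : ℝ) + 3) ^ Fintype.card D ≤
      2 * (2 * (Fintype.card H : ℝ) + 1) ^ Fintype.card D) :
    ∑ w ∈ (LL e univ B).filter (fun w => ¬ (stars w).card = 0),
      (1 - (1 / 2 : ℝ) ^ (stars w).card *
      (2 - (1 + 1 / (Fintype.card H : ℝ)) ^ (Fintype.card D - (stars w).card))) ≤ B.card := by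
  classical
  have hhpos : (0 : ℝ) < Fintype.card H := by exact_mod_cast hH
  have hk := sum_kappa e he B hd hH
  have hdf := TT_diff_le e he univ B (by rwa [card_univ]) hH (1 / 2) 1 (by norm_num)
    (by norm_num) le_rfl
  have hno := card_nostar e univ B hH
  set h : ℝ := (Fintype.card H : ℝ) with hh
  set d := Fintype.card D with hdd
  rw [card_univ, ← hdd] at hdf
  have e1 : (1 : ℝ) / 2 / h = 1 / (2 * h) := by field_simp
  rw [e1] at hdf
  have htot : ∑ w ∈ LL e univ B,
      (1 - (1 / 2 : ℝ) ^ (stars w).card * (2 - (1 + 1 / h) ^ (d - (stars w).card))) =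
      (TT e univ B 1 - TT e univ B (1 / 2)) + ∑ w ∈ LL e univ B, (1 / 2 : ℝ) ^ (stars w).card *
      ((1 + 1 / h) ^ (d - (stars w).card) - 1) := by
    rw [TT, TT, ← sum_sub_distrib, ← sum_add_distrib]
    apply sum_congr rfl
    intro w _
    rw [one_pow]; ring
  rw [← sum_filter_add_sum_filter_not (LL e univ B) (fun w => (stars w).card = 0)] at htot
  have hns : ∑ w ∈ (LL e univ B).filter (fun w => (stars w).card = 0),
      (1 - (1 / 2 : ℝ) ^ (stars w).card * (2 - (1 + 1 / h) ^ (d - (stars w).card))) =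
      ((1 + 1 / h) ^ d - 1) * B.card := by
    rw [← hno, ← nsmul_eq_mul', ← sum_const]
    apply sum_congr rfl
    intro w hw
    rw [mem_filter] at hw
    rw [hw.2]; simp; ring
  rw [hns] at htot
  have hB : (0 : ℝ) ≤ B.card := by positivity
  -- numeric
  have hnum : (1 + 3 / (2 * h)) ^ d ≤ 2 * (1 + 1 / (2 * h)) ^ d := by
    have a1 : 1 + 3 / (2 * h) = (2 * h + 3) / (2 * h) := by field_simp
    have a2 : 1 + 1 / (2 * h) = (2 * h + 1) / (2 * h) := by field_simp
    rw [a1, a2, div_pow, div_pow, ← mul_div_assoc]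
    exact div_le_div_of_nonneg_right hyp (by positivity)
  have := mul_le_mul_of_nonneg_right hnum hB
  nlinarith

/-- Even core. -/
theorem even_core (e : D → H → S) (he : ∀ i, Function.Injective (e i))
    (B : Finset (D → S)) (hd : Fintype.card D ≤ Fintype.card H + 1) (hH : 0 < Fintype.card H)
    (hyp : ((Fintype.card H : ℝ) + 1) ^ Fintype.card D ≤
      2 * (Fintype.card H : ℝ) ^ Fintype.card D) :
    ((LL e univ B).filter (fun w => ¬ (stars w).card = 0)).card ≤ B.card := by
  classical
  have hhpos : (0 : ℝ) < Fintype.card H := by exact_mod_cast hH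
  have h1 := TT_le e he univ B (by rwa [card_univ]) hH 1 (by norm_num) le_rfl
  rw [TT_one, card_univ] at h1
  have h2 := card_filter_add_card_filter_not (s := LL e univ B) (fun w => (stars w).card = 0)
  rw [card_nostar e univ B hH] at h2
  have h3 : (1 + 1 / (Fintype.card H : ℝ)) ^ Fintype.card D ≤ 2 := by
    have a1 : 1 + 1 / (Fintype.card H : ℝ) = ((Fintype.card H : ℝ) + 1) / (Fintype.card H : ℝ) := by
      field_simp
    rw [a1, div_pow, div_le_iff₀ (by positivity)]
    exact hyp
  have h4 : ((LL e univ B).card : ℝ) ≤ 2 * B.card :=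
    h1.trans (mul_le_mul_of_nonneg_right h3 (by positivity))
  have h5 : (LL e univ B).card ≤ 2 * B.card := by exact_mod_cast h4
  omega

/-- zero set -/
def zer (m : S) (p : D → S) : Finset D := univ.filter fun i => p i = m
def zerw (m : S) (w : D → Option S) : Finset D := univ.filter fun i => w i = some m

/-- words that are lines (with middle point) in `B`. -/
def WW (e : D → H → S) (m : S) (B : Finset (D → S)) : Finset (D → Option S) :=
  univ.filter fun w => (stars w).card ≠ 0 ∧ (∀ c, fill e w c ∈ B) ∧ (fun i => (w i).getD m) ∈ B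

theorem zer_fill (e : D → H → S) (m : S) (hm : ∀ i c, e i c ≠ m) (w : D → Option S) (c : H) :
    zer m (fill e w c) = zerw m w := by
  ext i
  rw [zer, zerw, mem_filter, mem_filter]
  simp only [mem_univ, true_and, fill]
  cases hw : w i with
  | none => simp [hm i c]
  | some s => simp

theorem zer_mid (m : S) (w : D → Option S) :
    zer m (fun i => (w i).getD m) = zerw m w ∪ stars w := by
  ext i
  simp only [zer, zerw, stars, mem_filter, mem_univ, true_and, mem_union]
  cases hw : w i with
  | none => simp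
  | some s => simp

theorem zerw_disj (m : S) (w : D → Option S) : Disjoint (stars w) (zerw m w) := by
  rw [disjoint_left]
  intro i hi hi'
  simp only [zerw, stars, mem_filter, mem_univ, true_and] at hi hi'
  rw [hi] at hi'; cases hi'

/-- Odd core. -/
theorem odd_core (e : D → H → S) (he : ∀ i, Function.Injective (e i)) (m : S)
    (hm : ∀ i c, e i c ≠ m)
    (B : Finset (D → S)) (hd : Fintype.card D ≤ Fintype.card H + 1) (hH : 0 < Fintype.card H)
    (hyp : (2 * (Fintype.card H : ℝ) + 3) ^ Fintype.card D ≤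
      2 * (2 * (Fintype.card H : ℝ) + 1) ^ Fintype.card D)
    (hyp2 : (1 + 1 / (Fintype.card H : ℝ)) ^ (Fintype.card D - 1) ≤ 2) :
    ∑ w ∈ WW e m B, (1 / 2 : ℝ) ^ (zerw m w).card ≤ ∑ p ∈ B, (1 / 2 : ℝ) ^ (zer m p).card := by
  classical
  have hhpos : (0 : ℝ) < Fintype.card H := by exact_mod_cast hH
  set h : ℝ := (Fintype.card H : ℝ) with hh
  set d := Fintype.card D with hdd
  let BA : Finset D → Finset (D → S) := fun A => B.filter fun p => zer m p = A
  let WA : Finset D → Finset (D → Option S) := fun A => (WW e m B).filter fun w => zerw m w = A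
  let κ : ℝ := 1 + 1 / h
  have hκ1 : 1 ≤ κ := by
    have : 0 < 1 / h := by positivity
    show 1 ≤ 1 + 1 / h
    linarith
  let δ : ℕ → ℝ := fun j => (1 / 2 : ℝ) ^ j * (2 - κ ^ (d - j))
  have hδ : ∀ j, j ≠ 0 → 0 ≤ δ j := by
    intro j hj
    have : κ ^ (d - j) ≤ κ ^ (d - 1) := pow_le_pow_right₀ hκ1 (by omega)
    have h2 : κ ^ (d - 1) ≤ 2 := hyp2
    apply mul_nonneg (by positivity)
    linarith
  -- fiberwise sums
  have hL : ∑ w ∈ WW e m B, (1 / 2 : ℝ) ^ (zerw m w).card =
      ∑ A : Finset D, (1 / 2 : ℝ) ^ A.card * (WA A).card := by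
    rw [← sum_fiberwise (WW e m B) (fun w => zerw m w)]
    apply sum_congr rfl
    intro A _
    rw [← nsmul_eq_mul', ← sum_const]
    apply sum_congr rfl
    intro w hw
    rw [(mem_filter.1 hw).2]
  have hR : ∑ p ∈ B, (1 / 2 : ℝ) ^ (zer m p).card =
      ∑ A : Finset D, (1 / 2 : ℝ) ^ A.card * (BA A).card := by
    rw [← sum_fiberwise B (fun p => zer m p)]
    apply sum_congr rfl
    intro A _
    rw [← nsmul_eq_mul', ← sum_const]
    apply sum_congr rfl
    intro p hp
    rw [(mem_filter.1 hp).2]
  rw [hL, hR]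
  -- words with zero set A are in LL
  have hsub : ∀ A, WA A ⊆ (LL e Aᶜ (BA A)).filter (fun w => ¬ (stars w).card = 0) := by
    intro A w hw
    simp only [WA, WW, mem_filter, mem_univ, true_and] at hw
    obtain ⟨⟨h1, h2, h3⟩, h4⟩ := hw
    simp only [LL, mem_filter, mem_univ, true_and, BA]
    refine ⟨⟨?_, ?_⟩, h1⟩
    · intro i hi
      rw [mem_compl, ← h4]
      exact disjoint_left.1 (zerw_disj m w) hi
    · intro c
      exact ⟨h2 c, by rw [zer_fill e m hm, h4]⟩
  -- A ≠ ∅
  have hA : ∀ A : Finset D, A ≠ ∅ → ((WA A).card : ℝ) ≤ (κ ^ (d - A.card) - 1) * (BA A).card := by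
    intro A hA
    have hc : (Aᶜ).card ≤ Fintype.card H + 1 := (card_le_univ _).trans hd
    have h1 := TT_le e he Aᶜ (BA A) hc hH 1 (by norm_num) le_rfl
    rw [TT_one, card_compl] at h1
    have h2 := card_filter_add_card_filter_not (s := LL e Aᶜ (BA A))
      (fun w => (stars w).card = 0)
    rw [card_nostar e Aᶜ (BA A) hH] at h2
    have h3 := card_le_card (hsub A)
    have h4 : ((WA A).card : ℝ) + (BA A).card ≤ (LL e Aᶜ (BA A)).card := by
      exact_mod_cast (by omega : (WA A).card + (BA A).card ≤ (LL e Aᶜ (BA A)).card)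
    have h5 : ((LL e Aᶜ (BA A)).card : ℝ) ≤ κ ^ (d - A.card) * (BA A).card := h1
    linarith
  -- A = ∅
  have h0 : ((WA ∅).card : ℝ) ≤ (BA ∅).card + ∑ A ∈ (univ : Finset (Finset D)).erase ∅,
      δ A.card * (BA A).card := by
    have e1 : ((WA ∅).card : ℝ) = ∑ w ∈ WA ∅, (1 - δ (stars w).card) +
        ∑ w ∈ WA ∅, δ (stars w).card := by
      rw [← sum_add_distrib]
      simp
    have e2 : ∑ w ∈ WA ∅, (1 - δ (stars w).card) ≤ (BA ∅).card := by
      have ht := threshold e he (BA ∅) hd hH hyp
      rw [← hh, ← hdd] at ht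
      refine le_trans ?_ ht
      apply sum_le_sum_of_subset_of_nonneg
      · have := hsub ∅
        rwa [compl_empty] at this
      · intro w hw _
        have hj := (mem_filter.1 hw).2
        set j := (stars w).card with hjj
        have h1 : (1 / 2 : ℝ) ^ j ≤ 1 / 2 := by
          have := pow_le_pow_of_le_one (by norm_num : (0 : ℝ) ≤ 1 / 2) (by norm_num)
            (Nat.one_le_iff_ne_zero.2 hj)
          simpa using this
        have h2 : (1 : ℝ) ≤ (1 + 1 / h) ^ (d - j) := one_le_pow₀ hκ1
        have h3 : (0 : ℝ) ≤ (1 / 2 : ℝ) ^ j := by positivity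
        nlinarith
    have e3 : ∑ w ∈ WA ∅, δ (stars w).card ≤ ∑ A ∈ (univ : Finset (Finset D)).erase ∅,
        δ A.card * (BA A).card := by
      rw [← sum_fiberwise (WA ∅) (fun w => stars w), ← add_sum_erase _ _ (mem_univ (∅ : Finset D))]
      have z : ∑ w ∈ (WA ∅).filter (fun w => stars w = ∅), δ (stars w).card = 0 := by
        apply sum_eq_zero
        intro w hw
        exfalso
        rw [mem_filter] at hw
        have := hw.1
        simp only [WA, WW, mem_filter] at this
        apply this.1.2.1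
        rw [hw.2]; rfl
      rw [z, zero_add]
      apply sum_le_sum
      intro J hJ
      have hJ0 : J.card ≠ 0 := by
        rw [mem_erase] at hJ
        rw [Ne, card_eq_zero]; exact hJ.1
      have : ∑ w ∈ (WA ∅).filter (fun w => stars w = J), δ (stars w).card =
          δ J.card * ((WA ∅).filter (fun w => stars w = J)).card := by
        rw [← nsmul_eq_mul', ← sum_const]
        apply sum_congr rfl
        intro w hw
        rw [(mem_filter.1 hw).2]
      rw [this]
      apply mul_le_mul_of_nonneg_left _ (hδ _ hJ0)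
      rw [Nat.cast_le]
      apply card_le_card_of_injOn (fun w => fun i => (w i).getD m)
      · intro w hw
        rw [mem_coe, mem_filter] at hw
        have hw1 := hw.1
        simp only [WA, WW, mem_filter, mem_univ, true_and] at hw1
        simp only [BA, mem_coe, mem_filter]
        refine ⟨hw1.1.2.2, ?_⟩
        rw [zer_mid, hw1.2, hw.2, empty_union]
      · intro w hw w' hw' hww
        rw [mem_coe, mem_filter] at hw hw'
        funext i
        have hi := congrFun hww i
        simp only at hi
        by_cases hiJ : i ∈ J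
        · have a1 : i ∈ stars w := by rw [hw.2]; exact hiJ
          have a2 : i ∈ stars w' := by rw [hw'.2]; exact hiJ
          simp only [stars, mem_filter, mem_univ, true_and] at a1 a2
          rw [a1, a2]
        · have a1 : i ∉ stars w := by rw [hw.2]; exact hiJ
          have a2 : i ∉ stars w' := by rw [hw'.2]; exact hiJ
          simp only [stars, mem_filter, mem_univ, true_and] at a1 a2
          obtain ⟨a, ha⟩ := Option.ne_none_iff_exists'.1 a1
          obtain ⟨b, hb⟩ := Option.ne_none_iff_exists'.1 a2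
          rw [ha, hb] at hi ⊢
          simp only [Option.getD_some] at hi
          rw [hi]
    rw [e1]; linarith
  -- combine
  rw [← add_sum_erase _ _ (mem_univ (∅ : Finset D)),
    ← add_sum_erase (univ : Finset (Finset D)) (fun A =>
      (1 / 2 : ℝ) ^ A.card * ((BA A).card : ℝ)) (mem_univ (∅ : Finset D))]
  simp only [card_empty, pow_zero, one_mul]
  have hrest : ∑ A ∈ (univ : Finset (Finset D)).erase ∅, (1 / 2 : ℝ) ^ A.card * ((WA A).card : ℝ) +
      ∑ A ∈ (univ : Finset (Finset D)).erase ∅, δ A.card * (BA A).card ≤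
      ∑ A ∈ (univ : Finset (Finset D)).erase ∅, (1 / 2 : ℝ) ^ A.card * ((BA A).card : ℝ) := by
    rw [← sum_add_distrib]
    apply sum_le_sum
    intro A hAe
    have := hA A (ne_of_mem_erase hAe)
    have h2 := mul_le_mul_of_nonneg_left this (by positivity : (0 : ℝ) ≤ (1 / 2 : ℝ) ^ A.card)
    have h3 : (1 / 2 : ℝ) ^ A.card * ((κ ^ (d - A.card) - 1) * (BA A).card) + δ A.card * (BA A).card
        = (1 / 2 : ℝ) ^ A.card * ((BA A).card : ℝ) := by
      simp only [δ]; ring
    linarith
  linarith

end odd

end Pool.Agent.H989R2
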