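import Pool.Agent.H989R2.Core

set_option autoImplicit false
set_option linter.unusedSectionVars false
set_option linter.unusedVariables false

namespace Pool.Agent.H989R2

open Finset

section thin

variable {D S H : Type} [Fintype D] [DecidableEq D] [Fintype S] [DecidableEq S]
  [Fintype H] [DecidableEq H]

/-- binomial sum over the interval of sets between `J` and `K`. -/
theorem icc_sum (J K : Finset D) (hJ : J ⊆ K) (x y : ℝ) :
    ∑ T ∈ Icc J K, x ^ T.card * y ^ (K.card - T.card) =
      x ^ J.card * (x + y) ^ (K.card - J.card) := by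
  classical
  rw [Icc_eq_image_powerset hJ, sum_image]
  · rw [← card_sdiff_of_subset hJ, ← sum_pow_mul_eq_add_pow, mul_sum]
    apply sum_congr rfl
    intro U hU
    rw [mem_powerset] at hU
    have hd : Disjoint J U := by
      rw [disjoint_left]; intro a ha haU
      exact (mem_sdiff.1 (hU haU)).2 ha
    have h1 : (J ∪ U).card = J.card + U.card := card_union_of_disjoint hd
    have h2 := card_sdiff_of_subset hJ
    have h3 := card_le_card hU
    have h4 := card_le_card hJ
    rw [h1, pow_add]
    have : K.card - (J.card + U.card) = (K \ J).card - U.card := by omega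
    rw [this]; ring
  · intro U hU V hV hUV
    simp only [mem_coe, mem_powerset] at hU hV
    have e1 : (J ∪ U) \ J = U := by
      ext a; simp only [mem_sdiff, mem_union]
      constructor
      · rintro ⟨h | h, h'⟩
        · exact absurd h h'
        · exact h
      · intro h; exact ⟨Or.inr h, (mem_sdiff.1 (hU h)).2⟩
    have e2 : (J ∪ V) \ J = V := by
      ext a; simp only [mem_sdiff, mem_union]
      constructor
      · rintro ⟨h | h, h'⟩
        · exact absurd h h'
        · exact h
      · intro h; exact ⟨Or.inr h, (mem_sdiff.1 (hV h)).2⟩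
    simp only at hUV
    rw [← e1, hUV, e2]

/-- the same with a factor `T.card`. -/
theorem icc_sum_card (J K : Finset D) (hJ : J ⊆ K) (σ : ℝ) :
    ∑ T ∈ Icc J K, (T.card : ℝ) * (σ ^ T.card * (1 - σ) ^ (K.card - T.card)) =
      σ ^ J.card * (J.card + (K.card - J.card) * σ) := by
  classical
  have h1 : ∀ T ∈ Icc J K, (T.card : ℝ) * (σ ^ T.card * (1 - σ) ^ (K.card - T.card)) =
      ∑ i ∈ K, if i ∈ T then (σ ^ T.card * (1 - σ) ^ (K.card - T.card)) else 0 := by
    intro T hT
    rw [mem_Icc] at hT
    rw [← sum_filter, sum_const, nsmul_eq_mul]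
    congr 2
    congr 1
    ext i
    rw [mem_filter]
    exact ⟨fun h => ⟨hT.2 h, h⟩, fun h => h.2⟩
  rw [sum_congr rfl h1, sum_comm]
  have h2 : ∀ i ∈ K, ∑ T ∈ Icc J K,
      (if i ∈ T then (σ ^ T.card * (1 - σ) ^ (K.card - T.card)) else 0) =
      σ ^ J.card * (if i ∈ J then 1 else σ) := by
    intro i hi
    rw [← sum_filter]
    have h3 : (Icc J K).filter (fun T => i ∈ T) = Icc (insert i J) K := by
      ext T
      simp only [mem_filter, mem_Icc, insert_subset_iff]
      tauto
    rw [h3, icc_sum _ _ (insert_subset hi hJ)]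
    have h5 : σ + (1 - σ) = 1 := by ring
    rw [h5, one_pow, mul_one]
    split_ifs with h
    · rw [insert_eq_of_mem h, mul_one]
    · rw [card_insert_of_notMem h, pow_succ]
  rw [sum_congr rfl h2, ← mul_sum]
  congr 1
  rw [← sum_filter_add_sum_filter_not K (fun i => i ∈ J)]
  have h4 : K.filter (fun i => i ∈ J) = J := by
    ext i; rw [mem_filter]; exact ⟨fun h => h.2, fun h => ⟨hJ h, h⟩⟩
  have h5 : K.filter (fun i => ¬ i ∈ J) = K \ J := by
    ext i; rw [mem_filter, mem_sdiff]
  rw [h4, h5]
  have h6 : ∑ i ∈ J, (if i ∈ J then (1 : ℝ) else σ) = J.card := by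
    rw [sum_congr rfl (fun i hi => if_pos hi)]; simp
  have h7 : ∑ i ∈ K \ J, (if i ∈ J then (1 : ℝ) else σ) = (K.card - J.card) * σ := by
    rw [sum_congr rfl (fun i hi => if_neg (mem_sdiff.1 hi).2), sum_const, nsmul_eq_mul,
      card_sdiff_of_subset hJ, Nat.cast_sub (card_le_card hJ)]
  rw [h6, h7]

theorem LL_comm (e : D → H → S) (K : Finset D) (B : Finset (D → S)) (T : Finset D)
    (w : D → Option S) :
    (T ∈ K.powerset ∧ w ∈ LL e T B) ↔ (T ∈ Icc (stars w) K ∧ w ∈ LL e K B) := by
  simp only [mem_powerset, LL, mem_filter, mem_univ, true_and, mem_Icc]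
  constructor
  · rintro ⟨h1, h2, h3⟩
    exact ⟨⟨h2, h1⟩, h2.trans h1, h3⟩
  · rintro ⟨⟨h1, h2⟩, h3, h4⟩
    exact ⟨h2, h1, h4⟩

/-- the thinned inequality. -/
theorem A2 (e : D → H → S) (he : ∀ i, Function.Injective (e i)) (K : Finset D)
    (B : Finset (D → S)) (hK : K.card ≤ Fintype.card H + 1) (hH : 0 < Fintype.card H)
    (σ : ℝ) (h0 : 0 ≤ σ) (h1 : σ ≤ 1) :
    ∑ w ∈ LL e K B, σ ^ (stars w).card *
      (((Fintype.card H : ℝ) + σ) * (stars w).card - K.card * σ) ≤ 0 := by
  classical
  have key : ∑ T ∈ K.powerset, ∑ w ∈ LL e T B, (σ ^ T.card * (1 - σ) ^ (K.card - T.card)) *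
      (((Fintype.card H : ℝ) + 1) * (stars w).card - T.card) ≤ 0 := by
    apply sum_nonpos
    intro T hT
    rw [mem_powerset] at hT
    rw [← mul_sum]
    apply mul_nonpos_of_nonneg_of_nonpos
    · have : 0 ≤ 1 - σ := by linarith
      positivity
    · exact A1 e he T B ((card_le_card hT).trans hK) hH
  rw [sum_comm' (LL_comm e K B)] at key
  refine le_of_eq_of_le ?_ key
  apply sum_congr rfl
  intro w hw
  rw [LL, mem_filter] at hw
  have e1 := icc_sum (stars w) K hw.2.1 σ (1 - σ)
  have e2 := icc_sum_card (stars w) K hw.2.1 σ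
  have h5 : σ + (1 - σ) = 1 := by ring
  rw [h5, one_pow, mul_one] at e1
  have : ∀ T ∈ Icc (stars w) K, (σ ^ T.card * (1 - σ) ^ (K.card - T.card)) *
      (((Fintype.card H : ℝ) + 1) * (stars w).card - T.card) =
      (((Fintype.card H : ℝ) + 1) * (stars w).card) *
        (σ ^ T.card * (1 - σ) ^ (K.card - T.card)) -
        (T.card : ℝ) * (σ ^ T.card * (1 - σ) ^ (K.card - T.card)) := by
    intro T _; ring
  rw [sum_congr rfl this, sum_sub_distrib, ← mul_sum, e1, e2]
  ring

/-- generating function -/
noncomputable def TT (e : D → H → S) (K : Finset D) (B : Finset (D → S)) (σ : ℝ) : ℝ :=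
  ∑ w ∈ LL e K B, σ ^ (stars w).card

theorem TT_zero (e : D → H → S) (K : Finset D) (B : Finset (D → S))
    (hH : 0 < Fintype.card H) : TT e K B 0 = B.card := by
  classical
  rw [← card_nostar e K B hH, TT, card_eq_sum_ones, Nat.cast_sum, sum_filter]
  apply sum_congr rfl
  intro w _
  split_ifs with h
  · rw [h]; simp
  · rw [zero_pow h]

theorem TT_one (e : D → H → S) (K : Finset D) (B : Finset (D → S)) :
    TT e K B 1 = (LL e K B).card := by
  simp [TT]

theorem TT_nonneg (e : D → H → S) (K : Finset D) (B : Finset (D → S)) (σ : ℝ) (h : 0 ≤ σ) :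
    0 ≤ TT e K B σ := by
  unfold TT; positivity

theorem hasDerivAt_TT (e : D → H → S) (K : Finset D) (B : Finset (D → S)) (σ : ℝ) :
    HasDerivAt (TT e K B) (∑ w ∈ LL e K B, ((stars w).card : ℝ) * σ ^ ((stars w).card - 1)) σ := by
  unfold TT
  apply HasDerivAt.fun_sum
  intro w _
  exact hasDerivAt_pow _ _

theorem ratio_mono (e : D → H → S) (he : ∀ i, Function.Injective (e i)) (K : Finset D)
    (B : Finset (D → S)) (hK : K.card ≤ Fintype.card H + 1) (hH : 0 < Fintype.card H)
    (s t : ℝ) (h0 : 0 ≤ s) (hst : s ≤ t) (h1 : t ≤ 1) :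
    TT e K B t * ((Fintype.card H : ℝ) + s) ^ K.card ≤
      TT e K B s * ((Fintype.card H : ℝ) + t) ^ K.card := by
  classical
  set h : ℝ := (Fintype.card H : ℝ) with hh
  have hhpos : 0 < h := by rw [hh]; exact_mod_cast hH
  set k := K.card with hk
  -- f x = TT x / (h+x)^k
  have hder : ∀ x : ℝ, 0 ≤ x → HasDerivAt (fun x => TT e K B x / (h + x) ^ k)
      (((∑ w ∈ LL e K B, ((stars w).card : ℝ) * x ^ ((stars w).card - 1)) * (h + x) ^ k -
        TT e K B x * ((k : ℝ) * (h + x) ^ (k - 1) * 1)) / ((h + x) ^ k) ^ 2) x := by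
    intro x hx
    have e1 := hasDerivAt_TT e K B x
    have e2 : HasDerivAt (fun x : ℝ => (h + x) ^ k) ((k : ℝ) * (h + x) ^ (k - 1) * 1) x := by
      have := (HasDerivAt.fun_pow ((hasDerivAt_id x).const_add h) k)
      simpa using this
    exact e1.div e2 (by positivity)
  have hanti : AntitoneOn (fun x => TT e K B x / (h + x) ^ k) (Set.Icc 0 1) := by
    apply antitoneOn_of_deriv_nonpos (convex_Icc 0 1)
    · intro x hx
      exact (hder x hx.1).continuousAt.continuousWithinAt
    · intro x hx
      rw [interior_Icc] at hx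
      exact (hder x hx.1.le).differentiableAt.differentiableWithinAt
    · intro x hx
      rw [interior_Icc] at hx
      rw [(hder x hx.1.le).deriv]
      apply div_nonpos_of_nonpos_of_nonneg
      · have a2 := A2 e he K B hK hH x hx.1.le hx.2.le
        have hx0 : 0 < x := hx.1
        -- x * ( (h + x) T' - k T) ≤ 0
        have e3 : ∑ w ∈ LL e K B, x ^ (stars w).card *
            ((h + x) * (stars w).card - K.card * x) =
            x * ((h + x) * (∑ w ∈ LL e K B, ((stars w).card : ℝ) * x ^ ((stars w).card - 1)) -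
              k * TT e K B x) := by
          unfold TT
          rw [mul_sum, mul_sum, ← sum_sub_distrib, mul_sum]
          apply sum_congr rfl
          intro w _
          rcases Nat.eq_zero_or_pos (stars w).card with hz | hp
          · rw [hz, ← hk]; simp; ring
          · have : x ^ (stars w).card = x * x ^ ((stars w).card - 1) := by
              rw [← pow_succ']; congr 1; omega
            rw [this, ← hk]; ring
        rw [e3] at a2
        have a3 : (h + x) * (∑ w ∈ LL e K B, ((stars w).card : ℝ) * x ^ ((stars w).card - 1)) -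
              k * TT e K B x ≤ 0 := by
          by_contra hcon
          push Not at hcon
          have := mul_pos hx0 hcon
          linarith
        rcases Nat.eq_zero_or_pos k with hz | hp
        · rw [hz] at a3 ⊢
          simp only [Nat.cast_zero, zero_mul, sub_zero, mul_zero, pow_zero, mul_one] at a3 ⊢
          by_contra hcon
          push Not at hcon
          have := mul_pos (by linarith : 0 < h + x) hcon
          linarith
        · have e4 : (h + x) ^ k = (h + x) ^ (k - 1) * (h + x) := by
            rw [← pow_succ]; congr 1; omega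
          have e5 : (∑ w ∈ LL e K B, ((stars w).card : ℝ) * x ^ ((stars w).card - 1)) * (h + x) ^ k -
              TT e K B x * ((k : ℝ) * (h + x) ^ (k - 1) * 1) = (h + x) ^ (k - 1) *
              ((h + x) * (∑ w ∈ LL e K B, ((stars w).card : ℝ) * x ^ ((stars w).card - 1)) -
              k * TT e K B x) := by
            rw [e4]; ring
          rw [e5]
          apply mul_nonpos_of_nonneg_of_nonpos _ a3
          positivity
      · positivity
  have hfin := hanti ⟨h0, hst.trans h1⟩ ⟨h0.trans hst, h1⟩ hst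
  simp only at hfin
  have ht0 : 0 ≤ t := h0.trans hst
  rwa [div_le_div_iff₀ (by positivity) (by positivity)] at hfin

/-- strong form. -/
theorem TT_le (e : D → H → S) (he : ∀ i, Function.Injective (e i)) (K : Finset D)
    (B : Finset (D → S)) (hK : K.card ≤ Fintype.card H + 1) (hH : 0 < Fintype.card H)
    (t : ℝ) (h0 : 0 ≤ t) (h1 : t ≤ 1) :
    TT e K B t ≤ (1 + t / (Fintype.card H : ℝ)) ^ K.card * B.card := by
  have hm := ratio_mono e he K B hK hH 0 t le_rfl h0 h1
  rw [TT_zero e K B hH, add_zero] at hm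
  have hhpos : (0 : ℝ) < Fintype.card H := by exact_mod_cast hH
  have e1 : (1 + t / (Fintype.card H : ℝ)) = ((Fintype.card H : ℝ) + t) / (Fintype.card H : ℝ) := by
    field_simp
  rw [e1, div_pow, div_mul_eq_mul_div, le_div_iff₀ (by positivity)]
  linarith

/-- difference form. -/
theorem TT_diff_le (e : D → H → S) (he : ∀ i, Function.Injective (e i)) (K : Finset D)
    (B : Finset (D → S)) (hK : K.card ≤ Fintype.card H + 1) (hH : 0 < Fintype.card H)
    (s t : ℝ) (h0 : 0 ≤ s) (hst : s ≤ t) (h1 : t ≤ 1) :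
    TT e K B t - TT e K B s ≤ ((1 + t / (Fintype.card H : ℝ)) ^ K.card -
      (1 + s / (Fintype.card H : ℝ)) ^ K.card) * B.card := by
  have hm := ratio_mono e he K B hK hH s t h0 hst h1
  have hs := TT_le e he K B hK hH s h0 (hst.trans h1)
  have hhpos : (0 : ℝ) < Fintype.card H := by exact_mod_cast hH
  set h : ℝ := (Fintype.card H : ℝ) with hh
  have ht0 : 0 ≤ t := h0.trans hst
  have e1 : ∀ x : ℝ, (1 + x / h) = (h + x) / h := by
    intro x; field_simp
  -- set a = (1+s/h)^k, b = (1+t/h)^k ;  T t * a ≤ T s * b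
  have hm' : TT e K B t * (1 + s / h) ^ K.card ≤ TT e K B s * (1 + t / h) ^ K.card := by
    rw [e1, e1, div_pow, div_pow, ← mul_div_assoc, ← mul_div_assoc]
    exact div_le_div_of_nonneg_right hm (by positivity)
  have ha : 0 < (1 + s / h) ^ K.card := by positivity
  have hab : (1 + s / h) ^ K.card ≤ (1 + t / h) ^ K.card := by
    apply pow_le_pow_left₀ (by positivity)
    have : s / h ≤ t / h := div_le_div_of_nonneg_right hst hhpos.le
    linarith
  have hT : TT e K B t - TT e K B s ≤
      TT e K B s * ((1 + t / h) ^ K.card - (1 + s / h) ^ K.card) / (1 + s / h) ^ K.card := by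
    rw [le_div_iff₀ ha]
    linarith
  have hT2 : TT e K B s / (1 + s / h) ^ K.card ≤ B.card := by
    rw [div_le_iff₀ ha]; linarith
  calc _ ≤ _ := hT
    _ = (TT e K B s / (1 + s / h) ^ K.card) * ((1 + t / h) ^ K.card - (1 + s / h) ^ K.card) := by
        ring
    _ ≤ B.card * ((1 + t / h) ^ K.card - (1 + s / h) ^ K.card) :=
        mul_le_mul_of_nonneg_right hT2 (by linarith)
    _ = _ := by ring

end thin

end Pool.Agent.H989R2
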